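import Pool.Agent.Lib.MP_d63cb0_gt.Hom

open Filter Topology Set

namespace Pool.Agent.Lib.MP_d63cb0_gt

variable {X : Type} [TopologicalSpace X]

lemma exists_pos_piece {α : Type} (F : Filter α) [F.NeBot] [CountableInterFilter F] {ι : Type}
    [Countable ι] (s : ι → Set α) (hs : ∀ᶠ x in F, ∃ i, x ∈ s i) :
    ∃ i, (F ⊓ 𝓟 (s i)).NeBot := by
  by_contra hne
  push Not at hne
  have h1 : ∀ i, ∀ᶠ x in F, x ∉ s i := fun i => inf_principal_eq_bot.1 (hne i)
  obtain ⟨x, ⟨i, hi⟩, hx⟩ := (hs.and (eventually_countable_forall.2 h1)).exists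
  exact hx i hi

lemma not_clusterPt_iff {x : X} {F : Filter X} :
    ¬ ClusterPt x F ↔ ∃ U ∈ 𝓝 x, ∃ V ∈ F, U ∩ V = ∅ := by
  rw [clusterPt_iff_nonempty]
  push Not
  rfl

/-- clamp to the unit interval -/
noncomputable def clamp (g : C(X, ℝ)) : C(X, ℝ) := (g ⊓ 1) ⊔ 0

lemma clamp_nonneg (g : C(X, ℝ)) (x : X) : 0 ≤ clamp g x := by simp [clamp]
lemma clamp_le (g : C(X, ℝ)) (x : X) : clamp g x ≤ 1 := by simp [clamp]
lemma clamp_abs (g : C(X, ℝ)) (x : X) : |clamp g x| ≤ 1 := by
  rw [abs_of_nonneg (clamp_nonneg g x)]; exact clamp_le g x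
lemma clamp_zero {g : C(X, ℝ)} {x : X} (h : g x ≤ 0) : clamp g x = 0 := by simp [clamp, h]
lemma clamp_one {g : C(X, ℝ)} {x : X} (h : 1 ≤ g x) : clamp g x = 1 := by simp [clamp, h]

/-- A map to the glued algebra which is a ring hom modulo null functions. -/
lemma exists_theta {F : Filter X} {G : X → Filter X} (φ : alg F G →+* ℝ)
    (hφ : ∀ g : alg F G, (∀ᶠ x in F, g.1 x = 0) → φ g = 0) {R : Type} [CommRing R]
    (σ : R → alg F G) (τ : R →+* (X → ℝ)) (h : ∀ u, ∀ᶠ x in F, (σ u).1 x = τ u x) :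
    ∃ θ : R →+* ℝ, ∀ u, θ u = φ (σ u) := by
  have key : ∀ a b : alg F G, (∀ᶠ x in F, a.1 x = b.1 x) → φ a = φ b := by
    intro a b hab
    rw [← sub_eq_zero, ← map_sub]
    apply hφ
    filter_upwards [hab] with x hx
    simp [hx]
  refine ⟨{ toFun := fun u => φ (σ u), map_one' := ?_, map_mul' := ?_, map_zero' := ?_,
            map_add' := ?_ }, fun u => rfl⟩
  · rw [← map_one φ]
    apply key
    filter_upwards [h 1] with x hx
    simp [hx]
  · intro u v
    rw [← map_mul]
    apply key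
    filter_upwards [h u, h v, h (u * v)] with x h1 h2 h3
    simp [h1, h2, h3]
  · rw [← map_zero φ]
    apply key
    filter_upwards [h 0] with x hx
    simp [hx]
  · intro u v
    rw [← map_add]
    apply key
    filter_upwards [h u, h v, h (u + v)] with x h1 h2 h3
    simp [h1, h2, h3]

theorem app_self [T35Space X] (H : AllCY X) (F : Filter X) [F.NeBot] [CountableInterFilter F]
    (T : C(X, X)) (f : C(X, ℝ)) (hf0 : ∀ x, |f x| ≤ 1) (hf : ∀ᶠ x in F, f x = 0 ∧ f (T x) = 1) :
    RC (map T F) := by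
  by_contra hne
  refine core F (fun x => pure (T x)) (Eventually.of_forall fun x => inferInstance) f hf0
    ?_ ?_ ?_ H
  · filter_upwards [hf] with x hx
    exact ⟨hx.1, hx.2 ▸ tendsto_pure_nhds f (T x)⟩
  · intro x0
    have h1 : ¬ ClusterPt x0 (map T F) := fun h => hne (RC_of_clusterPt h)
    have h2 : ¬ ClusterPt x0 F := fun h =>
      hne (RC_of_clusterPt (h.map T.continuous.continuousAt tendsto_map))
    rw [not_clusterPt_iff] at h1 h2
    obtain ⟨U1, hU1, V1, hV1, h1⟩ := h1
    obtain ⟨U2, hU2, V2, hV2, h2⟩ := h2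
    refine ⟨U1 ∩ U2, inter_mem hU1 hU2, ?_⟩
    filter_upwards [hV2, mem_map.1 hV1] with x hx2 hx1
    refine ⟨fun h => ?_, fun h => ?_⟩
    · exact (h2 ▸ (⟨h.2, hx2⟩ : x ∈ U2 ∩ V2) : x ∈ (∅ : Set X))
    · exact (h1 ▸ (⟨h.1, hx1⟩ : T x ∈ U1 ∩ V1) : T x ∈ (∅ : Set X))
  · intro φ
    by_contra hφ
    push Not at hφ
    have hσ : ∀ g : C(X, ℝ), (1 - f) * g.comp T + f * g ∈ alg F (fun x => pure (T x)) := by
      intro g
      filter_upwards [hf] with x hx
      have : ((1 - f) * g.comp T + f * g) x = ((1 - f) * g.comp T + f * g) (T x) := by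
        simp [hx.1, hx.2]
      rw [this]
      exact tendsto_pure_nhds _ _
    obtain ⟨θ, hθ⟩ := exists_theta φ hφ (fun g => ⟨_, hσ g⟩)
      (ContinuousMap.coeFnRingHom.comp (ContinuousMap.compRightAlgHom ℝ ℝ T).toRingHom)
      (fun g => by
        filter_upwards [hf] with x hx
        simp [hx.1])
    obtain ⟨U, hU, hU'⟩ := hom_ultra θ (map T F) (fun g hg => by
      rw [hθ]
      apply hφ
      filter_upwards [hf, eventually_map.1 hg] with x hx hx'
      simp [hx.1, hx'])
    exact hne (RC_of_ultra U hU fun g => ⟨_, hU' g⟩)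

theorem app_glue [T35Space X] (H : AllCY X) (F : Filter X) [F.NeBot] [CountableInterFilter F]
    {J : Type} (Φ Ψ : J → C(X, ℝ)) (k : C(X, ℝ)) (hk0 : ∀ x, 0 ≤ k x) (N : ℝ)
    (hk : ∀ᶠ x in F, k x ≤ N)
    (hΨ : ∀ (s : Finset J) (y : J → ℝ) (ε : ℝ), 0 < ε → ∀ m : ℝ,
      ∃ x, m ≤ k x ∧ ∀ j ∈ s, |Ψ j x - y j| < ε) :
    ∃ y : J → ℝ, MapClusterPt y F (fun x j => Φ j x) := by
  by_contra hne
  push Not at hne
  let c : (J → ℝ) → (J → EReal) := fun y j => (y j : EReal)
  have hc : Continuous c := continuous_pi fun j => continuous_coe_real_ereal.comp (continuous_apply j)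
  let h : C(X, J → EReal) := ⟨fun x => c fun j => Φ j x,
    hc.comp (continuous_pi fun j => (Φ j).continuous)⟩
  let p : C(X, J → EReal) := ⟨fun x => c fun j => Ψ j x,
    hc.comp (continuous_pi fun j => (Ψ j).continuous)⟩
  let 𝒢 : Filter X := comap k atTop
  let G : X → Filter X := fun x => 𝒢 ⊓ comap p (𝓝 (h x))
  let f : C(X, ℝ) := clamp (k - ContinuousMap.const X N)
  have hf1 : ∀ᶠ x in F, f x = 0 := by
    filter_upwards [hk] with x hx
    exact clamp_zero (by simpa using hx)
  have hf2 : ∀ᶠ x in 𝒢, f x = 1 := by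
    filter_upwards [tendsto_comap.eventually (eventually_ge_atTop (N + 1))] with x hx
    exact clamp_one (by simp; linarith)
  have hnb : ∀ x, (G x).NeBot := by
    intro x
    have h1 : (𝒢 ⊓ comap (fun z j => Ψ j z) (𝓝 (fun j => Φ j x))).NeBot := by
      rw [← forall_mem_nonempty_iff_neBot]
      intro s hs
      obtain ⟨s1, hs1, s2, hs2, rfl⟩ := mem_inf_iff.1 hs
      obtain ⟨t1, ht1, hts1⟩ := mem_comap.1 hs1
      obtain ⟨t2, ht2, hts2⟩ := mem_comap.1 hs2
      obtain ⟨m, hm⟩ := mem_atTop_sets.1 ht1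
      rw [nhds_pi, mem_pi'] at ht2
      obtain ⟨I, t, ht, htI⟩ := ht2
      have : ∀ᶠ ε in 𝓝[>] (0 : ℝ), ∀ j ∈ I, Metric.ball (Φ j x) ε ⊆ t j :=
        (eventually_all_finset I).2 fun j _ => 
          (eventually_ball_subset (ht j)).filter_mono nhdsWithin_le_nhds
      obtain ⟨ε, hε, hε0⟩ := (this.and self_mem_nhdsWithin).exists
      obtain ⟨z, hz1, hz2⟩ := hΨ I (fun j => Φ j x) ε hε0 m
      exact ⟨z, hts1 (hm _ hz1), hts2 (htI fun j hj => hε j hj (by
        simpa [Real.dist_eq] using hz2 j hj))⟩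
    refine h1.mono (inf_le_inf_left _ ?_)
    rw [← map_le_iff_le_comap]
    exact (hc.tendsto _).comp tendsto_comap
  refine core F G (Eventually.of_forall hnb) f (clamp_abs _) ?_ ?_ ?_ H
  · filter_upwards [hf1] with x hx
    refine ⟨hx, tendsto_const_nhds.congr' ?_⟩
    filter_upwards [hf2.filter_mono inf_le_left] with z hz
    exact hz.symm
  · intro x0
    have h1 : ¬ ClusterPt x0 F := fun h =>
      hne _ (h.map (continuous_pi fun j => (Φ j).continuous).continuousAt tendsto_map)
    rw [not_clusterPt_iff] at h1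
    obtain ⟨U1, hU1, V1, hV1, h1⟩ := h1
    refine ⟨U1 ∩ {z | k z < k x0 + 1}, inter_mem hU1
      ((isOpen_lt k.continuous continuous_const).mem_nhds (by simp)), ?_⟩
    filter_upwards [hV1] with x hx
    refine ⟨fun h => (h1 ▸ (⟨h.1, hx⟩ : x ∈ U1 ∩ V1) : x ∈ (∅ : Set X)), ?_⟩
    apply mem_inf_of_left
    filter_upwards [tendsto_comap.eventually (eventually_ge_atTop (k x0 + 1))] with z hz hz'
    exact absurd hz'.2 (not_lt.2 hz)
  · intro φ
    by_contra hφ
    push Not at hφ
    have hσ : ∀ u : C(J → EReal, ℝ), (1 - f) * u.comp h + f * u.comp p ∈ alg F G := by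
      intro u
      filter_upwards [hf1] with x hx
      have : ((1 - f) * u.comp h + f * u.comp p) x = u (h x) := by simp [hx]
      rw [this]
      have h2 : Tendsto (fun z => u (p z)) (G x) (𝓝 (u (h x))) :=
        ((u.continuous.tendsto _).comp tendsto_comap).mono_left inf_le_right
      refine h2.congr' ?_
      filter_upwards [hf2.filter_mono inf_le_left] with z hz
      simp [hz]
    obtain ⟨θ, hθ⟩ := exists_theta φ hφ (fun u => ⟨_, hσ u⟩)
      (ContinuousMap.coeFnRingHom.comp (ContinuousMap.compRightAlgHom ℝ ℝ h).toRingHom)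
      (fun g => by
        filter_upwards [hf1] with x hx
        simp [hx])
    obtain ⟨q, hq⟩ := hom_compact θ
    have huv : ∃ (u : C(J → EReal, ℝ)) (v : C(X, ℝ)), u q = 0 ∧ (∀ z, 0 ≤ u z) ∧ (∀ x, 0 < v x) ∧
        ∀ᶠ x in F, v x = u (h x) := by
      by_cases hq' : ∀ j, q j ≠ ⊥ ∧ q j ≠ ⊤
      · have h1 : ¬ MapClusterPt q F h := by
          intro hcl
          apply hne (fun j => (q j).toReal)
          have h3 : ContinuousAt (fun (z : J → EReal) j => (z j).toReal) q :=
            continuousAt_pi.2 fun j => (EReal.tendsto_toReal (hq' j).2 (hq' j).1).comp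
              (continuous_apply j).continuousAt
          exact hcl.continuousAt_comp h3
        rw [MapClusterPt, clusterPt_iff_forall_mem_closure] at h1
        push Not at h1
        obtain ⟨s, hs, hqs⟩ := h1
        obtain ⟨u, hu0, hu1, hu⟩ := exists_continuous_zero_one_of_isClosed isClosed_singleton
          isClosed_closure (disjoint_singleton_left.2 hqs)
        refine ⟨u, 1, hu0 (mem_singleton q), fun z => (hu z).1, fun x => by simp, ?_⟩
        filter_upwards [mem_map.1 hs] with x hx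
        exact (hu1 (subset_closure hx)).symm
      · push Not at hq'
        obtain ⟨j, hj⟩ := hq'
        let _ := TopologicalSpace.metrizableSpaceMetric EReal
        let u : C(J → EReal, ℝ) := ⟨fun z => dist (z j) ⊥ * dist (z j) ⊤,
          ((continuous_apply j).dist continuous_const).mul
            ((continuous_apply j).dist continuous_const)⟩
        refine ⟨u, u.comp h, ?_, fun z => mul_nonneg dist_nonneg dist_nonneg, fun x => ?_,
          Eventually.of_forall fun x => rfl⟩
        · by_cases hb : q j = ⊥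
          · simp [u, hb]
          · simp [u, hj hb]
        · exact mul_pos (dist_pos.2 (EReal.coe_ne_bot _)) (dist_pos.2 (EReal.coe_ne_top _))
    obtain ⟨u, v, hu0, hu, hv, hvu⟩ := huv
    let w : C(X, ℝ) := ⟨fun x => (1 + k x)⁻¹, (continuous_const.add k.continuous).inv₀
      fun x => by have := hk0 x; change 1 + k x ≠ 0; positivity⟩
    have hw0 : ∀ x, 0 < w x := fun x => by
      have := hk0 x
      simp only [w, ContinuousMap.coe_mk]
      positivity
    have hw : Tendsto w 𝒢 (𝓝 0) :=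
      tendsto_inv_atTop_zero.comp (tendsto_atTop_add_const_left _ 1 tendsto_comap)
    let d : C(X, ℝ) := (1 - f) * (v - u.comp h) + f * w
    have hd0 : ∀ᶠ x in F, d x = 0 := by
      filter_upwards [hf1, hvu] with x h1 h2
      simp [d, h1, h2]
    have hd : d ∈ alg F G := by
      filter_upwards [hd0] with x hx
      rw [hx]
      refine (hw.mono_left inf_le_left).congr' ?_
      filter_upwards [hf2.filter_mono inf_le_left] with z hz
      simp [d, hz]
    let g : alg F G := ⟨_, hσ u⟩ + ⟨d, hd⟩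
    have hg0 : φ g = 0 := by
      simp only [g]
      rw [map_add, ← hθ, hq, hu0, hφ _ hd0, add_zero]
    have hg : ∀ x, g.1 x ≠ 0 := by
      intro x
      have h1 : g.1 x = (1 - f x) * v x + f x * (u (p x) + w x) := by
        simp [g, d]; ring
      rw [h1]
      have h2 : 0 ≤ f x := clamp_nonneg _ x
      have h3 : f x ≤ 1 := clamp_le _ x
      have h4 : 0 < u (p x) + w x := add_pos_of_nonneg_of_pos (hu _) (hw0 x)
      have h5 := hv x
      rcases h2.eq_or_lt with h2 | h2
      · rw [← h2]; simpa using h5.ne'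
      · exact (add_pos_of_nonneg_of_pos (mul_nonneg (sub_nonneg.2 h3) h5.le) (mul_pos h2 h4)).ne'
    obtain ⟨g', hg'⟩ := exists_inv g.1 hg
    have h1 : g * ⟨g', alg_inv g.2 g' hg'⟩ = 1 := Subtype.ext hg'
    have h2 := congrArg φ h1
    simp [hg0] at h2

end Pool.Agent.Lib.MP_d63cb0_gt
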