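import Pool.Agent.Lib.MP_d63cb0_gt.Ind

open Filter Topology Set Cardinal

namespace Pool.Agent.Lib.MP_d63cb0_gt

inductive Tm (M : Type) : Type
  | leaf : Tm M
  | node : M → (ℕ → Tm M) → Tm M

lemma card_Tm {μ : Cardinal} (hμ : μ ^ ℵ₀ = μ) (hμ' : ℵ₀ ≤ μ) : #(Tm μ.out) ≤ μ := by
  obtain ⟨enc⟩ : Nonempty (Option (μ.out × (ℕ → μ.out)) ↪ μ.out) := by
    rw [← Cardinal.le_def]
    simp only [mk_option, mk_prod, mk_out, lift_id, mk_pi, prod_const, mk_eq_aleph0,
      hμ, mul_eq_self hμ', add_one_eq hμ', le_refl]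
  let code : Tm μ.out → μ.out := fun t => Tm.rec (enc none) (fun m _ ih => enc (some (m, ih))) t
  have hinj : ∀ t t', code t = code t' → t = t' := by
    intro t
    induction t with
    | leaf =>
      intro t' h
      cases t' with
      | leaf => rfl
      | node m ch => exact absurd (enc.injective h) (by simp)
    | node m ch ih =>
      intro t' h
      cases t' with
      | leaf => exact absurd (enc.injective h) (by simp)
      | node m' ch' =>
        have := enc.injective h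
        simp only [Option.some.injEq, Prod.mk.injEq] at this
        obtain ⟨rfl, h2⟩ := this
        congr 1
        funext n
        exact ih n _ (congrFun h2 n)
  exact (mk_le_of_injective (f := code) fun t t' h => hinj t t' h).trans_eq (mk_out μ)

lemma exists_closure {α : Type} {μ : Cardinal} (hμ : μ ^ ℵ₀ = μ) (hμ' : ℵ₀ ≤ μ) (a0 : α)
    (op : (ℕ → α) → Set α) (hop : ∀ a, #(op a) ≤ μ) :
    ∃ B : Set α, #B ≤ μ ∧ a0 ∈ B ∧ ∀ a : ℕ → α, (∀ n, a n ∈ B) → op a ⊆ B := by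
  have : ∀ a, ∃ en : μ.out → α, op a ⊆ range en := by
    intro a
    obtain ⟨e⟩ := (Cardinal.le_def _ _).1 ((hop a).trans_eq (mk_out μ).symm)
    refine ⟨Function.extend e Subtype.val fun _ => a0, fun x hx => ⟨e ⟨x, hx⟩, ?_⟩⟩
    rw [e.injective.extend_apply]
  choose en hen using this
  let ev : Tm μ.out → α := fun t => Tm.rec a0 (fun m _ ih => en ih m) t
  refine ⟨range ev, mk_range_le.trans (card_Tm hμ hμ'), ⟨Tm.leaf, rfl⟩, fun a ha x hx => ?_⟩
  choose t ht using ha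
  obtain ⟨m, rfl⟩ := hen a hx
  refine ⟨Tm.node m t, ?_⟩
  have : a = fun n => ev (t n) := funext fun n => (ht n).symm
  rw [this]

variable {X : Type} [TopologicalSpace X]

lemma maxdisj (hX : CCC X) (D : Set (Set X)) (hD : ∀ U ∈ D, IsOpen U ∧ U.Nonempty) :
    ∃ A ⊆ D, A.Countable ∧ ∀ b ∈ D, ∃ a ∈ A, (a ∩ b).Nonempty := by
  obtain ⟨A, hA⟩ := zorn_subset {A | A ⊆ D ∧ A.PairwiseDisjoint id} (by
    intro c hc hchain
    refine ⟨⋃₀ c, ⟨sUnion_subset fun A hA => (hc hA).1, ?_⟩, fun s hs => subset_sUnion_of_mem hs⟩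
    rw [PairwiseDisjoint, pairwise_sUnion hchain.directedOn]
    exact fun A hA => (hc hA).2)
  refine ⟨A, hA.prop.1, hX A (fun U hU => hD U (hA.prop.1 hU)) hA.prop.2, fun b hb => ?_⟩
  by_contra hne
  push Not at hne
  have h1 : insert b A ∈ {A | A ⊆ D ∧ A.PairwiseDisjoint id} := by
    refine ⟨insert_subset hb hA.prop.1, hA.prop.2.insert fun a ha _ => ?_⟩
    simp only [id]
    rw [disjoint_iff_inter_eq_empty, inter_comm]
    exact hne a ha
  have h2 : b ∈ A := hA.le_of_ge h1 (subset_insert _ _) (mem_insert _ _)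
  have h3 := hne b h2
  rw [inter_self] at h3
  exact (hD b hb).2.ne_empty h3

lemma card_countable_subsets {α : Type} {μ : Cardinal} (hμ : μ ^ ℵ₀ = μ) (hμ' : ℵ₀ ≤ μ)
    (B : Set α) (hB : #B ≤ μ) : #{A : Set α // A ⊆ B ∧ A.Countable} ≤ μ := by
  have h1 : #(ℕ → Option B) ≤ μ := by
    simp only [mk_pi, prod_const, mk_eq_aleph0, lift_id, mk_option]
    rw [← hμ]
    apply power_le_power_right
    calc #B + 1 ≤ μ + 1 := by gcongr
      _ = μ := add_one_eq hμ'
  refine le_trans ?_ h1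
  have : ∀ A : {A : Set α // A ⊆ B ∧ A.Countable}, ∃ f : ℕ → Option B,
      A.1 = {x | ∃ n, ∃ h : x ∈ B, f n = some ⟨x, h⟩} := by
    rintro ⟨A, hA, hAc⟩
    rcases A.eq_empty_or_nonempty with rfl | hne
    · exact ⟨fun _ => none, by simp⟩
    · obtain ⟨f, rfl⟩ := hAc.exists_eq_range hne
      refine ⟨fun n => some ⟨f n, hA (mem_range_self n)⟩, ?_⟩
      ext x
      simp only [mem_range, Option.some.injEq, Subtype.mk.injEq, mem_ofPred_eq]
      exact ⟨fun ⟨n, hn⟩ => ⟨n, hn ▸ hA (mem_range_self n), hn⟩, fun ⟨n, _, hn⟩ => ⟨n, hn⟩⟩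
  choose f hf using this
  refine mk_le_of_injective (f := f) fun A A' h => Subtype.ext ?_
  rw [hf A, hf A', h]

lemma count_restr {μ : Cardinal} (hμ : μ ^ ℵ₀ = μ) (hμ' : ℵ₀ ≤ μ) (V : Set X) (hV : IsOpen V)
    (B : Set (Set X)) (hB : #B ≤ μ)
    (h : ∀ (f : C(X, ℝ)) (r s : ℚ), r < s → ∃ A ⊆ B, A.Countable ∧
      (∀ a ∈ A, (∀ x ∈ a, (r : ℝ) ≤ f x) ∨ ∀ x ∈ a, f x ≤ s) ∧
      ∀ O, IsOpen O → O.Nonempty → O ⊆ V → ∃ a ∈ A, (a ∩ O).Nonempty) :
    ∃ J : Set C(X, ℝ), #J ≤ μ ∧ ∀ f : C(X, ℝ), ∃ g ∈ J, EqOn f g V := by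
  choose A hAB hAc hA1 hA2 using h
  let P := {p : ℚ × ℚ // p.1 < p.2}
  let S := {A : Set (Set X) // A ⊆ B ∧ A.Countable}
  let data : C(X, ℝ) → P → S × S := fun f p =>
    (⟨{a ∈ A f p.1.1 p.1.2 p.2 | ∀ x ∈ a, (p.1.1 : ℝ) ≤ f x}, fun a ha => hAB _ _ _ _ ha.1,
      (hAc _ _ _ _).mono fun a ha => ha.1⟩,
     ⟨{a ∈ A f p.1.1 p.1.2 p.2 | ∀ x ∈ a, f x ≤ p.1.2}, fun a ha => hAB _ _ _ _ ha.1,
      (hAc _ _ _ _).mono fun a ha => ha.1⟩)
  have key : ∀ f g, data f = data g → ∀ x ∈ V, g x ≤ f x := by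
    intro f g hfg x hx
    by_contra hlt
    push Not at hlt
    obtain ⟨r, hr1, hr2⟩ := exists_rat_btwn hlt
    obtain ⟨s, hs1, hs2⟩ := exists_rat_btwn hr2
    have hrs : r < s := by exact_mod_cast hs1
    obtain ⟨a, ha, z, hz, ⟨hz1, hz2⟩, -⟩ := hA2 f r s hrs ({z | f z < r} ∩ {z | (s : ℝ) < g z} ∩ V)
      (((isOpen_lt f.continuous continuous_const).inter
        (isOpen_lt continuous_const g.continuous)).inter hV) ⟨x, ⟨hr1, hs2⟩, hx⟩
      inter_subset_right
    rcases hA1 f r s hrs a ha with h | h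
    · exact absurd (h z hz) (not_le.2 hz1)
    · have h1 := congrArg (fun d : P → S × S => (d ⟨(r, s), hrs⟩).2.1) hfg
      have h2 : a ∈ (data g ⟨(r, s), hrs⟩).2.1 := by
        rw [← h1]
        exact ⟨ha, h⟩
      exact absurd (h2.2 z hz) (not_le.2 hz2)
  have hS : #S ≤ μ := card_countable_subsets hμ hμ' B hB
  have hc : #(P → S × S) ≤ μ := by
    simp only [mk_pi, prod_const, lift_id, mk_prod]
    calc (#S * #S) ^ #P ≤ (μ * μ) ^ #P := power_le_power_right (mul_le_mul' hS hS)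
      _ ≤ μ ^ ℵ₀ := by
        rw [mul_eq_self hμ']
        exact power_le_power_left (aleph0_pos.trans_le hμ').ne' mk_le_aleph0
      _ = μ := hμ
  refine ⟨range (Function.invFun data), mk_range_le.trans hc, fun f =>
    ⟨_, ⟨data f, rfl⟩, fun x hx => ?_⟩⟩
  have := Function.invFun_eq (f := data) ⟨f, rfl⟩
  exact le_antisymm (key _ _ this x hx) (key _ _ this.symm x hx)

/-- the two open sides of a function -/
def side (g : C(X, ℝ)) (b : Bool) : Set X := interior {x | g x = if b then 1 else 0}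

lemma side_disj (g : C(X, ℝ)) {x : X} (h0 : x ∈ side g false) (h1 : x ∈ side g true) : False := by
  have h2 := interior_subset h0
  have h3 := interior_subset h1
  simp only [mem_ofPred_eq] at h2 h3
  simp [h2] at h3

noncomputable def ramp (f : C(X, ℝ)) (r s : ℝ) : C(X, ℝ) :=
  clamp ((s - r)⁻¹ • (f - ContinuousMap.const X r))

lemma ramp_zero {f : C(X, ℝ)} {r s : ℝ} (h : r < s) {x : X} (hx : f x ≤ r) : ramp f r s x = 0 := by
  apply clamp_zero
  simp only [ContinuousMap.smul_apply, ContinuousMap.sub_apply, ContinuousMap.const_apply,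
    smul_eq_mul]
  exact mul_nonpos_of_nonneg_of_nonpos (inv_nonneg.2 (by linarith)) (by linarith)

lemma ramp_one {f : C(X, ℝ)} {r s : ℝ} (h : r < s) {x : X} (hx : s ≤ f x) : ramp f r s x = 1 := by
  apply clamp_one
  simp only [ContinuousMap.smul_apply, ContinuousMap.sub_apply, ContinuousMap.const_apply,
    smul_eq_mul]
  rw [← div_eq_inv_mul, one_le_div (by linarith)]
  linarith

lemma mem_side_false {f : C(X, ℝ)} {r s : ℝ} (h : r < s) {x : X} (hx : f x < r) :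
    x ∈ side (ramp f r s) false :=
  interior_maximal (fun _ hz => ramp_zero h (le_of_lt hz))
    (isOpen_lt f.continuous continuous_const) hx

lemma mem_side_true {f : C(X, ℝ)} {r s : ℝ} (h : r < s) {x : X} (hx : s < f x) :
    x ∈ side (ramp f r s) true :=
  interior_maximal (fun _ hz => ramp_one h (le_of_lt hz))
    (isOpen_lt continuous_const f.continuous) hx

lemma count_of_dense (hX : CCC X) {μ : Cardinal} (hμ : μ ^ ℵ₀ = μ) (hμ' : ℵ₀ ≤ μ) (V : Set X)
    (hV : IsOpen V) (B : Set (Set X)) (hB : #B ≤ μ)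
    (h : ∀ (g : C(X, ℝ)) (A : Set (Set X)), A ⊆ B → A.Countable → ∀ O, IsOpen O → O.Nonempty →
      O ⊆ V → (∀ a ∈ A, a ∩ O = ∅) → ∃ b ∈ B, IsOpen b ∧ b.Nonempty ∧ (∀ a ∈ A, a ∩ b = ∅) ∧
        (b ∩ side g false = ∅ ∨ b ∩ side g true = ∅)) :
    ∃ J : Set C(X, ℝ), #J ≤ μ ∧ ∀ f : C(X, ℝ), ∃ g ∈ J, EqOn f g V := by
  refine count_restr hμ hμ' V hV B hB fun f r s hrs => ?_
  have hrs' : (r : ℝ) < s := by exact_mod_cast hrs
  obtain ⟨A, hA, hAc, hA'⟩ := maxdisj hX {b ∈ B | IsOpen b ∧ b.Nonempty ∧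
    (b ∩ side (ramp f r s) false = ∅ ∨ b ∩ side (ramp f r s) true = ∅)}
    fun U hU => ⟨hU.2.1, hU.2.2.1⟩
  refine ⟨A, fun a ha => (hA ha).1, hAc, fun a ha => ?_, fun O hO hO' hOV => ?_⟩
  · rcases (hA ha).2.2.2 with h | h
    · left
      intro x hx
      by_contra hlt
      exact (h ▸ (⟨hx, mem_side_false hrs' (not_le.1 hlt)⟩ : x ∈ a ∩ _) : x ∈ (∅ : Set X))
    · right
      intro x hx
      by_contra hlt
      exact (h ▸ (⟨hx, mem_side_true hrs' (not_le.1 hlt)⟩ : x ∈ a ∩ _) : x ∈ (∅ : Set X))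
  · by_contra hne
    push Not at hne
    obtain ⟨b, hb, hb1, hb2, hb3, hb4⟩ := h (ramp f r s) A (fun a ha => (hA ha).1) hAc O hO hO'
      hOV hne
    obtain ⟨a, ha, ha'⟩ := hA' b ⟨hb, hb1, hb2, hb4⟩
    exact ha'.ne_empty (hb3 a ha)

lemma count_of_pibase (hX : CCC X) {μ : Cardinal} (hμ : μ ^ ℵ₀ = μ) (hμ' : ℵ₀ ≤ μ)
    (B : Set (Set X)) (hB : #B ≤ μ)
    (h : ∀ O, IsOpen O → O.Nonempty → ∃ b ∈ B, IsOpen b ∧ b.Nonempty ∧ b ⊆ O) :
    #C(X, ℝ) ≤ μ := by
  obtain ⟨J, hJ, hJ'⟩ := count_of_dense hX hμ hμ' Set.univ isOpen_univ B hB (by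
    intro g A _ _ O hO hO' _ hA
    have aux : ∀ b ⊆ O, ∀ a ∈ A, a ∩ b = ∅ := fun b hb a ha =>
      subset_eq_empty (inter_subset_inter_right _ hb) (hA a ha)
    rcases (O ∩ side g false).eq_empty_or_nonempty with h1 | h1
    · obtain ⟨b, hb, hb1, hb2, hb3⟩ := h O hO hO'
      exact ⟨b, hb, hb1, hb2, aux b hb3,
        Or.inl (subset_eq_empty (inter_subset_inter_left _ hb3) h1)⟩
    · obtain ⟨b, hb, hb1, hb2, hb3⟩ := h _ (hO.inter isOpen_interior) h1
      exact ⟨b, hb, hb1, hb2, aux b (hb3.trans inter_subset_left),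
        Or.inr (eq_empty_of_forall_notMem fun x hx => side_disj g (hb3 hx.1).2 hx.2)⟩)
  have : J = Set.univ := eq_univ_of_forall fun f => by
    obtain ⟨g, hg, hfg⟩ := hJ' f
    have : f = g := ContinuousMap.ext fun x => hfg (mem_univ x)
    exact this ▸ hg
  rwa [this, mk_univ] at hJ

def pat (r : Set X) (s : Finset C(X, ℝ)) (b : C(X, ℝ) → Bool) : Set X :=
  r ∩ ⋂ g ∈ s, side g (b g)

def IndepOn (r : Set X) (I : Set C(X, ℝ)) : Prop :=
  ∀ s : Finset C(X, ℝ), ↑s ⊆ I → ∀ b, (pat r s b).Nonempty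

lemma exists_max_indep (r : Set X) (hr : r.Nonempty) :
    ∃ I, IndepOn r I ∧ ∀ g, IndepOn r (insert g I) → g ∈ I := by
  obtain ⟨I, -, hI⟩ := zorn_subset_nonempty {I | IndepOn r I} (by
    intro c hc hchain hne
    refine ⟨⋃₀ c, fun s hs b => ?_, fun s hs => subset_sUnion_of_mem hs⟩
    obtain ⟨I, hI, hsI⟩ := hchain.directedOn.exists_mem_subset_of_finset_subset_biUnion
      hne (s := s) (f := id) (by rwa [sUnion_eq_biUnion] at hs)
    exact hc hI s hsI b) ∅ (by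
      intro s hs b
      have : s = ∅ := by simpa using hs
      simpa [pat, this] using hr)
  exact ⟨I, hI.prop, fun g hg => hI.le_of_ge hg (subset_insert _ _) (mem_insert _ _)⟩

theorem indep_of_many (hX : CCC X) {μ : Cardinal} (hμ : μ ^ ℵ₀ = μ) (hμ' : ℵ₀ ≤ μ) (V : Set X)
    (hV : IsOpen V)
    (h : ¬ ∃ J : Set C(X, ℝ), #J ≤ μ ∧ ∀ f : C(X, ℝ), ∃ g ∈ J, EqOn f g V) :
    ∃ ι : Type, μ < #ι ∧ IndepFam V ι := by
  classical
  by_contra hne
  push Not at hne
  apply h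
  have h1 : ∀ r : Set X, ∃ I : Set C(X, ℝ), #I ≤ μ ∧ (r.Nonempty → r ⊆ V → IndepOn r I ∧
      ∀ g, IndepOn r (insert g I) → g ∈ I) := by
    intro r
    by_cases hr : r.Nonempty ∧ r ⊆ V
    · obtain ⟨I, hI, hI'⟩ := exists_max_indep r hr.1
      refine ⟨I, ?_, fun _ _ => ⟨hI, hI'⟩⟩
      by_contra hlt
      refine hne I (not_le.1 hlt) ⟨Subtype.val, fun s b => ?_⟩
      obtain ⟨x, hx, hx'⟩ := hI (s.map (Function.Embedding.subtype _))
        (by intro g hg; obtain ⟨i, -, rfl⟩ := Finset.mem_map.1 hg; exact i.2)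
        (fun g => if h : g ∈ I then b ⟨g, h⟩ else false)
      refine ⟨x, hr.2 hx, fun i hi => ?_⟩
      have := interior_subset (mem_iInter₂.1 hx' i.1 (Finset.mem_map_of_mem _ hi))
      simpa using this
    · exact ⟨∅, by simp, fun h1 h2 => absurd ⟨h1, h2⟩ hr⟩
  choose I hI hI' using h1
  have h2 : ∀ a : ℕ → Set X, ∃ W : Set X, ∀ O, IsOpen O → O.Nonempty → O ⊆ V →
      (∀ n, a n ∩ O = ∅) → IsOpen W ∧ W.Nonempty ∧ W ⊆ V ∧ ∀ n, a n ∩ W = ∅ := by
    intro a
    by_cases hO : ∃ O, IsOpen O ∧ O.Nonempty ∧ O ⊆ V ∧ ∀ n, a n ∩ O = ∅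
    · obtain ⟨O, hO⟩ := hO
      exact ⟨O, fun _ _ _ _ _ => hO⟩
    · exact ⟨∅, fun O h1 h2 h3 h4 => absurd ⟨O, h1, h2, h3, h4⟩ hO⟩
  choose W hW using h2
  let P : Set X → Set (Set X) := fun r => {p | ∃ s : Finset C(X, ℝ), ↑s ⊆ I r ∧ ∃ b, p = pat r s b}
  have hP : ∀ r, #(P r) ≤ μ := by
    intro r
    let F : Finset (I r) × Finset (I r) → Set X := fun z =>
      pat r (z.1.map (Function.Embedding.subtype _))
        fun g => decide (g ∈ z.2.map (Function.Embedding.subtype _))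
    have : P r ⊆ range F := by
      rintro _ ⟨s, hs, b, rfl⟩
      refine ⟨(s.subtype _, (s.filter fun g => b g = true).subtype _), ?_⟩
      simp only [F, Finset.subtype_map]
      rw [Finset.filter_true_of_mem fun g hg => hs hg]
      simp only [pat]
      congr 1
      refine iInter₂_congr fun g hg => ?_
      congr 1
      have : g ∈ I r := hs hg
      simp [hg, this]
    refine (mk_le_mk_of_subset this).trans (mk_range_le.trans ?_)
    have h3 : #(Finset (I r)) ≤ μ := by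
      rcases finite_or_infinite (I r) with h | h
      · exact (lt_aleph0_of_finite _).le.trans hμ'
      · rw [mk_finset_of_infinite]; exact hI r
    simp only [mk_prod, lift_id]
    exact (mul_le_mul' h3 h3).trans_eq (mul_eq_self hμ')
  obtain ⟨B, hB, hB0, hB'⟩ := exists_closure hμ hμ' (∅ : Set X)
    (fun a => insert (W a) (P (a 0))) (fun a => by
      refine mk_insert_le.trans ?_
      calc #(P (a 0)) + 1 ≤ μ + 1 := by gcongr; exact hP _
        _ = μ := add_one_eq hμ')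
  refine count_of_dense hX hμ hμ' V hV B hB ?_
  intro g A hAB hAc O hO hO' hOV hA
  obtain ⟨a, ha⟩ := (hAc.insert ∅).exists_eq_range (insert_nonempty _ _)
  have ha1 : ∀ n, a n ∈ insert ∅ A := fun n => ha ▸ mem_range_self n
  have haB : ∀ n, a n ∈ B := fun n => (ha1 n).elim (fun h => h ▸ hB0) fun h => hAB h
  obtain ⟨hW1, hW2, hW3, hW4⟩ := hW a O hO hO' hOV fun n =>
    (ha1 n).elim (fun h => by simp [h]) fun h => hA _ h
  have hWB : W a ∈ B := hB' a haB (mem_insert _ _)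
  set r := W a with hr
  have hPB : P r ⊆ B := fun p hp => hB' (fun _ => r) (fun _ => hWB) (mem_insert_of_mem _ hp)
  obtain ⟨hI1, hI2⟩ := hI' r hW2 hW3
  by_contra hno
  push Not at hno
  have hmeet : ∀ s : Finset C(X, ℝ), ↑s ⊆ I r → ∀ b c, (pat r s b ∩ side g c).Nonempty := by
    intro s hs b c
    have := hno (pat r s b) (hPB ⟨s, hs, b, rfl⟩)
      (hW1.inter (isOpen_biInter_finset fun _ _ => isOpen_interior)) (hI1 s hs b) (fun a' ha' => by
        obtain ⟨n, rfl⟩ : a' ∈ range a := ha ▸ mem_insert_of_mem _ ha'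
        exact subset_eq_empty (inter_subset_inter_right _ inter_subset_left) (hW4 n))
    cases c
    · exact this.1
    · exact this.2
  have hg : g ∈ I r := hI2 g (by
    intro s hs b
    obtain ⟨x, hx, hx'⟩ := hmeet (s.erase g) (by
      intro g' hg'
      have := Finset.mem_erase.1 hg'
      exact (hs this.2).resolve_left this.1) b (b g)
    refine ⟨x, hx.1, mem_iInter₂.2 fun g' hg' => ?_⟩
    by_cases h : g' = g
    · exact h ▸ hx'
    · exact mem_iInter₂.1 hx.2 g' (Finset.mem_erase.2 ⟨h, hg'⟩))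
  obtain ⟨x, hx, hx'⟩ := hmeet {g} (by simpa using hg) (fun _ => false) true
  exact side_disj g (mem_iInter₂.1 hx.2 g (Finset.mem_singleton_self g)) hx'

end Pool.Agent.Lib.MP_d63cb0_gt
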