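import Pool.Agent.Lib.MP_d63cb0_gt.Defs

open Filter Topology Set

namespace Pool.Agent.Lib.MP_d63cb0_gt

variable {X : Type} [TopologicalSpace X]

/-- The glued algebra. -/
def alg (F : Filter X) (G : X → Filter X) : Subalgebra ℝ C(X, ℝ) where
  carrier := {a | ∀ᶠ x in F, Tendsto a (G x) (𝓝 (a x))}
  mul_mem' := by
    intro a b ha hb
    filter_upwards [ha, hb] with x h1 h2
    exact h1.mul h2
  add_mem' := by
    intro a b ha hb
    filter_upwards [ha, hb] with x h1 h2
    exact h1.add h2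
  algebraMap_mem' := by
    intro r
    exact Eventually.of_forall fun x => tendsto_const_nhds

lemma mem_alg {F : Filter X} {G : X → Filter X} {a : C(X, ℝ)} :
    a ∈ alg F G ↔ ∀ᶠ x in F, Tendsto a (G x) (𝓝 (a x)) := Iff.rfl

lemma alg_inv {F : Filter X} {G : X → Filter X} {f : C(X, ℝ)} (hf : f ∈ alg F G) (g : C(X, ℝ))
    (h : f * g = 1) : g ∈ alg F G := by
  have h1 : ∀ x, f x * g x = 1 := fun x => by simpa using congrArg (fun u : C(X, ℝ) => u x) h
  have h2 : ∀ x, g x = (f x)⁻¹ := fun x => (eq_inv_of_mul_eq_one_right (h1 x))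
  have h3 : ∀ x, f x ≠ 0 := fun x h0 => by simpa [h0] using h1 x
  filter_upwards [mem_alg.1 hf] with x hx
  have : (g : X → ℝ) = fun y => (f y)⁻¹ := funext h2
  rw [this]
  exact hx.inv₀ (h3 x)

lemma alg_closed {F : Filter X} [CountableInterFilter F] {G : X → Filter X} (f : C(X, ℝ))
    (h : ∀ ε : ℝ, 0 < ε → ∃ g ∈ alg F G, ∀ x : X, |f x - g x| < ε) : f ∈ alg F G := by
  choose g hg hg' using fun n : ℕ => h (1 / ((n : ℝ) + 1)) (by positivity)
  have : ∀ᶠ x in F, ∀ n, Tendsto (g n) (G x) (𝓝 (g n x)) :=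
    eventually_countable_forall.2 fun n => hg n
  filter_upwards [this] with x hx
  rw [Metric.tendsto_nhds]
  intro ε hε
  obtain ⟨n, hn⟩ := exists_nat_one_div_lt (show 0 < ε / 3 by positivity)
  filter_upwards [Metric.tendsto_nhds.1 (hx n) (ε / 3) (by positivity)] with y hy
  rw [Real.dist_eq] at hy ⊢
  have h1 := hg' n y
  have h2 := hg' n x
  rw [abs_lt] at *
  constructor <;> linarith [h1.1, h1.2, h2.1, h2.2, hy.1, hy.2]

lemma alg_sep [T35Space X] {F : Filter X} {G : X → Filter X}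
    (hloc : ∀ x0, ∃ U ∈ 𝓝 x0, ∀ᶠ x in F, x ∉ U ∧ Uᶜ ∈ G x) (C : Set X) (x : X) (hC : IsClosed C)
    (hx : x ∉ C) : ∃ f ∈ alg F G, f x ∉ closure (f '' C) := by
  obtain ⟨U, hU, hU'⟩ := hloc x
  have hcl : IsClosed (C ∪ (interior U)ᶜ) := hC.union isOpen_interior.isClosed_compl
  have hx' : x ∉ C ∪ (interior U)ᶜ := by
    simp only [mem_union, mem_compl_iff, not_or, not_not]
    exact ⟨hx, mem_interior_iff_mem_nhds.2 hU⟩
  obtain ⟨u, hu, hu0, hu1⟩ := CompletelyRegularSpace.completely_regular x _ hcl hx'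
  let g : C(X, ℝ) := ⟨fun y => (u y : ℝ), continuous_subtype_val.comp hu⟩
  have hg : ∀ y ∈ C ∪ (interior U)ᶜ, g y = 1 := fun y hy => by
    have := hu1 hy
    simp only [Pi.one_apply] at this
    simp [g, this]
  refine ⟨g, ?_, ?_⟩
  · filter_upwards [hU'] with y hy
    have h1 : g y = 1 := hg y (Or.inr fun h => hy.1 (interior_subset h))
    rw [h1]
    refine tendsto_const_nhds.congr' ?_
    filter_upwards [hy.2] with z hz
    exact (hg z (Or.inr fun h => hz (interior_subset h))).symm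
  · have : g '' C ⊆ {1} := by
      rintro _ ⟨y, hy, rfl⟩
      exact hg y (Or.inl hy)
    intro h
    have h2 := closure_minimal this isClosed_singleton h
    simp [g, hu0] at h2

theorem core [T35Space X] (F : Filter X) [F.NeBot] [CountableInterFilter F] (G : X → Filter X)
    (hG : ∀ᶠ x in F, (G x).NeBot) (f : C(X, ℝ)) (hf0 : ∀ x, |f x| ≤ 1)
    (hf : ∀ᶠ x in F, f x = 0 ∧ Tendsto f (G x) (𝓝 1))
    (hloc : ∀ x0, ∃ U ∈ 𝓝 x0, ∀ᶠ x in F, x ∉ U ∧ Uᶜ ∈ G x)
    (hhom : ∀ φ : alg F G →+* ℝ, ∃ g : alg F G, (∀ᶠ x in F, g.1 x = 0) ∧ φ g ≠ 0) :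
    ¬ AllCY X := by
  intro H
  obtain ⟨Y, tY, ⟨e⟩⟩ := H (alg F G) alg_closed (alg_sep hloc) (fun f hf g h => alg_inv hf g h)
  have hmul : ∀ g : alg F G, (∀ᶠ x in F, g.1 x = 0) → f * g.1 ∈ alg F G := by
    intro g hg
    filter_upwards [hg, mem_alg.1 g.2] with x h1 h2
    rw [h1] at h2
    have h3 : (f * g.1) x = 0 := by simp [h1]
    rw [h3]
    refine squeeze_zero_norm (a := fun y => ‖g.1 y‖) (fun y => ?_) (by simpa using h2.norm)
    simp only [ContinuousMap.mul_apply, norm_mul]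
    exact mul_le_of_le_one_left (norm_nonneg _) (hf0 y)
  let ev : Y → (alg F G →+* ℝ) := fun y =>
    (ContinuousMap.evalAlgHom ℝ ℝ y).toRingHom.comp e.toRingHom
  choose g hg0 hg1 using fun y => hhom (ev y)
  have hg1' : ∀ y, e (g y) y ≠ 0 := hg1
  have key : ∀ (a b : alg F G) (ha : ∀ᶠ x in F, a.1 x = 0) (hb : ∀ᶠ x in F, b.1 x = 0) (y : Y),
      e ⟨_, hmul a ha⟩ y * e b y = e ⟨_, hmul b hb⟩ y * e a y := by
    intro a b ha hb y
    have : (⟨_, hmul a ha⟩ : alg F G) * b = ⟨_, hmul b hb⟩ * a := by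
      apply Subtype.ext
      simp only [MulMemClass.coe_mul]
      ring
    have h2 := congrArg (fun u => e u y) this
    simpa using h2
  let r : Y → ℝ := fun y => e ⟨_, hmul (g y) (hg0 y)⟩ y / e (g y) y
  have hr : ∀ (a : alg F G) (ha : ∀ᶠ x in F, a.1 x = 0) (y : Y),
      r y * e a y = e ⟨_, hmul a ha⟩ y := by
    intro a ha y
    have := key a (g y) ha (hg0 y) y
    have h1 := hg1' y
    simp only [r]
    field_simp
    linarith
  have hrc : Continuous r := by
    rw [continuous_iff_continuousAt]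
    intro y0
    have h1 : ∀ᶠ y in 𝓝 y0, e (g y0) y ≠ 0 :=
      (e (g y0)).continuous.continuousAt.eventually_ne (hg1' y0)
    have h2 : ContinuousAt (fun y => e ⟨_, hmul (g y0) (hg0 y0)⟩ y / e (g y0) y) y0 :=
      (ContinuousMap.continuous _).continuousAt.div (ContinuousMap.continuous _).continuousAt
        (hg1' y0)
    refine h2.congr ?_
    filter_upwards [h1] with y hy
    rw [← hr (g y0) (hg0 y0) y]
    field_simp
  let a : alg F G := e.symm ⟨r, hrc⟩
  have ha : ∀ (b : alg F G) (hb : ∀ᶠ x in F, b.1 x = 0), a * b = ⟨_, hmul b hb⟩ := by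
    intro b hb
    apply e.injective
    ext y
    rw [map_mul]
    simp only [a, RingEquiv.apply_symm_apply, ContinuousMap.mul_apply, ContinuousMap.coe_mk]
    exact hr b hb y
  have haf : ∀ x, a.1 x = f x := by
    intro x
    obtain ⟨b, hb0, hb1⟩ := hhom
      ((ContinuousMap.evalAlgHom ℝ ℝ x).toRingHom.comp (alg F G).val.toRingHom)
    have hb1' : b.1 x ≠ 0 := hb1
    have := congrArg (fun u : alg F G => u.1 x) (ha b hb0)
    simp only [MulMemClass.coe_mul, ContinuousMap.mul_apply] at this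
    exact mul_right_cancel₀ hb1' this
  have hfa : f ∈ alg F G := by
    have : a.1 = f := ContinuousMap.ext haf
    rw [← this]
    exact a.2
  obtain ⟨x, h1, ⟨h2, h3⟩, h4⟩ := (hG.and (hf.and (mem_alg.1 hfa))).exists
  rw [h2] at h4
  exact zero_ne_one (tendsto_nhds_unique h4 h3)

end Pool.Agent.Lib.MP_d63cb0_gt
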