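import Mathlib

namespace Pool.Agent.Lib.MP_d63cb0_gt

/-- Every uniformly closed, inversion closed subalgebra of C(X) separating points from closed
sets is ring isomorphic to C(Y) for some space Y. -/
def AllCY (X : Type) [TopologicalSpace X] : Prop :=
  ∀ A : Subalgebra ℝ C(X, ℝ),
    (∀ f : C(X, ℝ), (∀ ε : ℝ, 0 < ε → ∃ g ∈ A, ∀ x : X, |f x - g x| < ε) → f ∈ A) →
    (∀ (F : Set X) (x : X), IsClosed F → x ∉ F → ∃ f ∈ A, f x ∉ closure (f '' F)) →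
    (∀ f ∈ A, ∀ g : C(X, ℝ), f * g = 1 → g ∈ A) →
    ∃ (Y : Type) (_ : TopologicalSpace Y), Nonempty (A ≃+* C(Y, ℝ))

/-- The Hewitt realcompactification inside the Stone-Cech compactification. -/
def Ups (X : Type) [TopologicalSpace X] : Set (StoneCech X) :=
  {p | ∀ f : C(X, ℝ), ∀ g : C(StoneCech X, EReal),
    (∀ x : X, g (stoneCechUnit x) = ((f x : ℝ) : EReal)) → ∃ r : ℝ, g p = (r : EReal)}

/-- countable chain condition -/
def CCC (X : Type) [TopologicalSpace X] : Prop :=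
  ∀ 𝒰 : Set (Set X), (∀ U ∈ 𝒰, IsOpen U ∧ U.Nonempty) → 𝒰.PairwiseDisjoint id → 𝒰.Countable

/-- every open cover has a point-countable open refinement -/
def MetaLindelof (X : Type) [TopologicalSpace X] : Prop :=
  ∀ 𝒰 : Set (Set X), (∀ U ∈ 𝒰, IsOpen U) → ⋃₀ 𝒰 = Set.univ →
    ∃ 𝒱 : Set (Set X), (∀ V ∈ 𝒱, IsOpen V ∧ ∃ U ∈ 𝒰, V ⊆ U) ∧ ⋃₀ 𝒱 = Set.univ ∧
      ∀ x, {V ∈ 𝒱 | x ∈ V}.Countable

end Pool.Agent.Lib.MP_d63cb0_gt
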