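import Pool.Agent.Lib.MP_d63cb0_gt.Core

open Filter Topology Set

namespace Pool.Agent.Lib.MP_d63cb0_gt

lemma hom_const {Z : Type} [TopologicalSpace Z] (θ : C(Z, ℝ) →+* ℝ) (r : ℝ) :
    θ (ContinuousMap.const Z r) = r := by
  have : θ.comp (algebraMap ℝ C(Z, ℝ)) = RingHom.id ℝ := Subsingleton.elim _ _
  exact congrArg (fun u : ℝ →+* ℝ => u r) this

lemma exists_inv {Z : Type} [TopologicalSpace Z] (g : C(Z, ℝ)) (hg : ∀ z, g z ≠ 0) :
    ∃ g' : C(Z, ℝ), g * g' = 1 :=
  ⟨⟨fun z => (g z)⁻¹, g.continuous.inv₀ hg⟩, by ext z; simp [hg z]⟩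

lemma hom_ne_zero {Z : Type} [TopologicalSpace Z] (θ : C(Z, ℝ) →+* ℝ) (g : C(Z, ℝ))
    (hg : ∀ z, g z ≠ 0) : θ g ≠ 0 := by
  obtain ⟨g', h⟩ := exists_inv g hg
  intro h0
  have := congrArg θ h
  simp [h0] at this

lemma hom_ultra {Z : Type} [TopologicalSpace Z] (θ : C(Z, ℝ) →+* ℝ) (H : Filter Z)
    (hH : ∀ g : C(Z, ℝ), (∀ᶠ z in H, g z = 0) → θ g = 0) :
    ∃ U : Ultrafilter Z, (U : Filter Z) ≤ H ∧ ∀ g : C(Z, ℝ), Tendsto g U (𝓝 (θ g)) := by
  let L : C(Z, ℝ) → Filter Z := fun g => H ⊓ comap g (𝓝 (θ g))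
  have hc : ∀ g : C(Z, ℝ), θ ((g - ContinuousMap.const Z (θ g)) ^ 2) = 0 := by
    intro g
    rw [map_pow, map_sub, hom_const]
    simp
  have hL : ∀ g, (L g).NeBot := by
    intro g
    rw [← forall_mem_nonempty_iff_neBot]
    intro s hs
    obtain ⟨s1, hs1, s2, hs2, rfl⟩ := mem_inf_iff.1 hs
    obtain ⟨t, ht, hts⟩ := mem_comap.1 hs2
    obtain ⟨ε, hε, hεt⟩ := Metric.mem_nhds_iff.1 ht
    by_contra hne
    rw [not_nonempty_iff_eq_empty] at hne
    let k : C(Z, ℝ) := (ContinuousMap.const Z (ε ^ 2) - (g - ContinuousMap.const Z (θ g)) ^ 2) ⊔ 0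
    have hk : θ k = 0 := by
      apply hH
      filter_upwards [hs1] with z hz
      have h1 : ε ≤ |g z - θ g| := by
        by_contra hlt
        push Not at hlt
        have : z ∈ s1 ∩ s2 := ⟨hz, hts (hεt (by simpa [Real.dist_eq] using hlt))⟩
        simp [hne] at this
      have h2 : ε ^ 2 ≤ (g z - θ g) ^ 2 := by
        rw [← sq_abs (g z - θ g)]
        exact pow_le_pow_left₀ hε.le h1 2
      simp [k, h2]
    refine hom_ne_zero θ (k + (g - ContinuousMap.const Z (θ g)) ^ 2) (fun z => ?_) ?_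
    · have h1 : ε ^ 2 - (g z - θ g) ^ 2 ≤ k z := by simp [k]
      have h2 : 0 < ε ^ 2 := by positivity
      have : (k + (g - ContinuousMap.const Z (θ g)) ^ 2) z = k z + (g z - θ g) ^ 2 := by simp
      rw [this]
      linarith
    · rw [map_add, hk, hc, add_zero]
  have hdir : Directed (· ≥ ·) L := by
    intro g1 g2
    let g3 : C(Z, ℝ) := (g1 - ContinuousMap.const Z (θ g1)) ^ 2 +
      (g2 - ContinuousMap.const Z (θ g2)) ^ 2
    have h3 : θ g3 = 0 := by simp only [g3]; rw [map_add, hc, hc, add_zero]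
    have aux : ∀ g : C(Z, ℝ), (∀ z, (g z - θ g) ^ 2 ≤ g3 z) → L g3 ≤ L g := by
      intro g hg
      refine inf_le_inf_left _ ?_
      rw [← map_le_iff_le_comap]
      change Tendsto g _ _
      rw [Metric.tendsto_nhds]
      intro ε hε
      have : ∀ᶠ z in comap g3 (𝓝 (θ g3)), dist (g3 z) (θ g3) < ε ^ 2 :=
        Metric.tendsto_nhds.1 tendsto_comap _ (by positivity)
      filter_upwards [this] with z hz
      rw [h3, Real.dist_eq, sub_zero] at hz
      rw [Real.dist_eq]
      apply abs_lt_of_sq_lt_sq _ hε.le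
      exact (hg z).trans_lt ((le_abs_self _).trans_lt hz)
    refine ⟨g3, aux g1 fun z => ?_, aux g2 fun z => ?_⟩
    · simp only [g3, ContinuousMap.add_apply, ContinuousMap.pow_apply, ContinuousMap.sub_apply,
        ContinuousMap.const_apply]
      nlinarith [sq_nonneg (g2 z - θ g2)]
    · simp only [g3, ContinuousMap.add_apply, ContinuousMap.pow_apply, ContinuousMap.sub_apply,
        ContinuousMap.const_apply]
      nlinarith [sq_nonneg (g1 z - θ g1)]
  have : (⨅ g, L g).NeBot := iInf_neBot_of_directed' hdir hL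
  refine ⟨Ultrafilter.of (⨅ g, L g), ?_, fun g => ?_⟩
  · exact (Ultrafilter.of_le _).trans ((iInf_le L 0).trans inf_le_left)
  · exact tendsto_comap.mono_left ((Ultrafilter.of_le _).trans ((iInf_le L g).trans inf_le_right))

lemma hom_compact {Q : Type} [TopologicalSpace Q] [CompactSpace Q] (θ : C(Q, ℝ) →+* ℝ) :
    ∃ q, ∀ u : C(Q, ℝ), θ u = u q := by
  obtain ⟨U, -, hU⟩ := hom_ultra θ ⊤ (fun g hg => by
    have : g = 0 := ContinuousMap.ext (by simpa using hg)
    rw [this, map_zero])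
  obtain ⟨q, -, hq⟩ := isCompact_univ.ultrafilter_le_nhds U (by simp)
  exact ⟨q, fun u => tendsto_nhds_unique (hU u) (u.continuous.continuousAt.mono_left hq)⟩

variable {X : Type} [TopologicalSpace X]

/-- a filter has a cluster point in the realcompactification -/
def RC (F : Filter X) : Prop := ∃ p ∈ Ups X, MapClusterPt p F stoneCechUnit

lemma unit_mem_Ups (x : X) : stoneCechUnit x ∈ Ups X := fun f _ hg => ⟨f x, hg x⟩

lemma RC_of_ultra {F : Filter X} (U : Ultrafilter X) (hU : (U : Filter X) ≤ F)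
    (h : ∀ g : C(X, ℝ), ∃ r, Tendsto g U (𝓝 r)) : RC F := by
  obtain ⟨p, -, hp⟩ := isCompact_univ.ultrafilter_le_nhds (U.map stoneCechUnit) (by simp)
  have hp' : Tendsto stoneCechUnit (U : Filter X) (𝓝 p) := hp
  refine ⟨p, fun f g hg => ?_, hp'.mapClusterPt.mono hU⟩
  obtain ⟨r, hr⟩ := h f
  refine ⟨r, tendsto_nhds_unique ((g.continuous.tendsto p).comp hp') ?_⟩
  have : (g ∘ stoneCechUnit) = fun x => ((f x : ℝ) : EReal) := funext hg
  rw [this]
  exact (continuous_coe_real_ereal.tendsto r).comp hr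

lemma RC.mono {F F' : Filter X} (h : RC F) (hle : F ≤ F') : RC F' := by
  obtain ⟨p, hp, hp'⟩ := h
  exact ⟨p, hp, hp'.mono hle⟩

lemma RC.ultra {F : Filter X} (h : RC F) :
    ∃ U : Ultrafilter X, (U : Filter X) ≤ F ∧ ∀ g : C(X, ℝ), ∃ r, Tendsto g U (𝓝 r) := by
  obtain ⟨p, hp, hp'⟩ := h
  obtain ⟨U, hU, hUp⟩ := mapClusterPt_iff_ultrafilter.1 hp'
  refine ⟨U, hU, fun g => ?_⟩
  have hc : Continuous fun x => ((g x : ℝ) : EReal) := continuous_coe_real_ereal.comp g.continuous
  obtain ⟨r, hr⟩ := hp g ⟨stoneCechExtend hc, continuous_stoneCechExtend hc⟩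
    (fun x => congrFun (stoneCechExtend_extends hc) x)
  refine ⟨r, ?_⟩
  have h1 := ((continuous_stoneCechExtend hc).tendsto p).comp hUp
  have h2 : stoneCechExtend hc p = r := hr
  rw [h2, stoneCechExtend_extends hc] at h1
  exact EReal.tendsto_coe.1 h1

lemma RC_of_clusterPt {F : Filter X} {x : X} (h : ClusterPt x F) : RC F :=
  ⟨_, unit_mem_Ups x, h.map continuous_stoneCechUnit.continuousAt tendsto_map⟩

lemma gdelta_dense {p : StoneCech X} (hp : p ∈ Ups X) (g : ℕ → C(StoneCech X, ℝ)) :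
    ∃ x, ∀ n, g n (stoneCechUnit x) = g n p := by
  let _ := TopologicalSpace.metrizableSpaceMetric (ℕ → ℝ)
  let Γ : StoneCech X → ℕ → ℝ := fun q n => g n q
  have hΓ : Continuous Γ := continuous_pi fun n => (g n).continuous
  by_contra hne
  push Not at hne
  have hd : ∀ x, 0 < dist (Γ (stoneCechUnit x)) (Γ p) := by
    intro x
    rw [dist_pos]
    intro h
    obtain ⟨n, hn⟩ := hne x
    exact hn (congrFun h n)
  have hdc : Continuous fun q => dist (Γ q) (Γ p) := hΓ.dist continuous_const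
  let f : C(X, ℝ) := ⟨fun x => (dist (Γ (stoneCechUnit x)) (Γ p))⁻¹,
    (hdc.comp continuous_stoneCechUnit).inv₀ fun x => (hd x).ne'⟩
  let G : C(StoneCech X, EReal) := ⟨fun q => ((ENNReal.ofReal (dist (Γ q) (Γ p)))⁻¹ : ENNReal),
    continuous_coe_ennreal_ereal.comp (ENNReal.continuous_ofReal.comp hdc).inv⟩
  obtain ⟨r, hr⟩ := hp f G (fun x => by
    simp only [G, f, ContinuousMap.coe_mk]
    rw [← ENNReal.ofReal_inv_of_pos (hd x), EReal.coe_ennreal_ofReal, max_eq_left]
    exact (inv_pos.2 (hd x)).le)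
  simp [G] at hr

theorem lindelof_of_RC (h : ∀ F : Filter X, F.NeBot → CountableInterFilter F → RC F) :
    IsLindelof (Ups X) := by
  intro H hH hH' hle
  let S : Set (Set X) := {s | ∃ g : C(StoneCech X, ℝ), (∀ᶠ q in H, g q = 0) ∧
    s = {x | g (stoneCechUnit x) = 0}}
  have hne : (countableGenerate S).NeBot := by
    rw [← forall_mem_nonempty_iff_neBot]
    intro s hs
    obtain ⟨T, hT, hTc, hTs⟩ := mem_countableGenerate_iff.1 hs
    have hT' : (insert univ T).Countable := hTc.insert _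
    obtain ⟨t, ht⟩ := hT'.exists_eq_range (insert_nonempty _ _)
    have : ∀ n, ∃ g : C(StoneCech X, ℝ), (∀ᶠ q in H, g q = 0) ∧
        t n = {x | g (stoneCechUnit x) = 0} := by
      intro n
      have hn : t n ∈ insert univ T := ht ▸ mem_range_self n
      rcases hn with hn | hn
      · exact ⟨0, by simp, by simp [hn]⟩
      · exact hT hn
    choose g hg hg' using this
    obtain ⟨p, hp, hp'⟩ := ((eventually_countable_forall.2 hg).and
      (le_principal_iff.1 hle)).exists
    obtain ⟨x, hx⟩ := gdelta_dense hp' g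
    refine ⟨x, hTs fun u hu => ?_⟩
    obtain ⟨n, rfl⟩ : u ∈ range t := ht ▸ mem_insert_of_mem _ hu
    rw [hg' n]
    exact (hx n).trans (hp n)
  obtain ⟨p, hp, hp'⟩ := h (countableGenerate S) hne inferInstance
  refine ⟨p, hp, ?_⟩
  rw [clusterPt_iff_forall_mem_closure]
  intro s hs
  by_contra hps
  obtain ⟨u, hu0, hu1, -⟩ := exists_continuous_zero_one_of_isClosed isClosed_closure
    isClosed_singleton (disjoint_singleton_right.2 hps)
  have h1 : {x | u (stoneCechUnit x) = 0} ∈ countableGenerate S := by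
    apply CountableGenerateSets.basic
    refine ⟨u, ?_, rfl⟩
    filter_upwards [hs] with q hq
    exact hu0 (subset_closure hq)
  have h2 : p ∈ closure {q | u q = 0} := by
    have := clusterPt_iff_forall_mem_closure.1 hp' {q | u q = 0} h1
    exact this
  rw [(isClosed_eq u.continuous continuous_const).closure_eq] at h2
  have h3 := hu1 (mem_singleton p)
  simp only [mem_ofPred_eq] at h2
  simp [h2] at h3

end Pool.Agent.Lib.MP_d63cb0_gt
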