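import Pool.Agent.Lib.MP_d63cb0_gt.App

open Filter Topology Set Cardinal

namespace Pool.Agent.Lib.MP_d63cb0_gt

variable {X : Type} [TopologicalSpace X]

def Ind (J : Type) (V : ℕ → Set X) : Prop :=
  ∃ ψ : ℕ → J → C(X, ℝ), ∀ (s : Finset J) (y : J → ℝ) (ε : ℝ), 0 < ε → ∀ m : ℕ,
    ∃ n, m ≤ n ∧ ∃ x ∈ V n, ∀ j ∈ s, |ψ n j x - y j| < ε

theorem main1 [T35Space X] (H : AllCY X) (F : Filter X) [F.NeBot] [CountableInterFilter F]
    {J : Type} (Φ : J → C(X, ℝ))
    (hI : ∀ V : ℕ → Set X, (∀ n, IsOpen (V n) ∧ (F ⊓ 𝓟 (V n)).NeBot) → Ind J V) :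
    ∃ y : J → ℝ, MapClusterPt y F (fun x j => Φ j x) := by
  by_cases hb : ∀ j, ∃ N : ℝ, ∀ᶠ x in F, |Φ j x| ≤ N
  · choose N hN using hb
    let U := Ultrafilter.of F
    have hU : (U : Filter X) ≤ F := Ultrafilter.of_le F
    have : ∀ j, ∃ r, Tendsto (Φ j) U (𝓝 r) := by
      intro j
      obtain ⟨r, -, hr⟩ := (isCompact_Icc (a := -N j) (b := N j)).ultrafilter_le_nhds
        (U.map (Φ j)) (by
          rw [le_principal_iff]
          refine mem_map.2 (hU ?_)
          filter_upwards [hN j] with x hx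
          exact abs_le.1 hx)
      exact ⟨r, hr⟩
    choose y hy using this
    exact ⟨y, (tendsto_pi_nhds.2 hy).mapClusterPt.mono hU⟩
  push Not at hb
  obtain ⟨j0, hj0⟩ := hb
  let k : C(X, ℝ) := |Φ j0|
  have hk : ∀ x, k x = |Φ j0 x| := fun x => by simp [k]
  obtain ⟨N, hN⟩ := exists_pos_piece F (fun n : ℕ => {x | k x ≤ n})
    (Eventually.of_forall fun x => exists_nat_ge (k x))
  have hnext : ∀ M : ℝ, ∃ a : ℝ, M < a ∧ (F ⊓ 𝓟 {x | |k x - a| < 1 / 4}).NeBot := by
    intro M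
    have h1 : (F ⊓ 𝓟 {x | M < k x}).NeBot := by
      have := hj0 M
      rw [← frequently_mem_iff_neBot]
      exact this.mono fun x hx => by simpa [hk] using hx
    obtain ⟨q, hq⟩ := exists_pos_piece (F ⊓ 𝓟 {x | M < k x})
      (fun q : {q : ℚ // M < q} => {x | |k x - (q.1 : ℝ)| < 1 / 4}) (by
        filter_upwards [mem_inf_of_right (mem_principal_self _)] with x hx
        obtain ⟨q, h1, h2⟩ := exists_rat_btwn (show k x < k x + 1 / 4 by linarith)
        refine ⟨⟨q, lt_trans hx h1⟩, ?_⟩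
        simp only [abs_lt]
        constructor <;> linarith)
    exact ⟨q.1, q.2, hq.mono (inf_le_inf_right _ inf_le_left)⟩
  choose nx hnx hnx' using hnext
  let a : ℕ → ℝ := fun n => Nat.rec (nx 0) (fun _ b => nx (b + 1)) n
  have ha1 : ∀ n, a n + 1 < a (n + 1) := fun n => hnx _
  have ha2 : ∀ n, (F ⊓ 𝓟 {x | |k x - a n| < 1 / 4}).NeBot := by
    intro n
    cases n <;> exact hnx' _
  have ha3 : ∀ n : ℕ, (n : ℝ) < a n := by
    intro n
    induction n with
    | zero => exact_mod_cast hnx 0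
    | succ n ih => push_cast; linarith [ha1 n]
  have ha4 : ∀ m n, m < n → a m + 1 < a n := by
    intro m n h
    induction h with
    | refl => exact ha1 m
    | step _ ih => linarith [ha1 ‹_›]
  obtain ⟨ψ, hψ⟩ := hI (fun n => {x | |k x - a n| < 1 / 4}) fun n =>
    ⟨isOpen_lt (k.continuous.sub continuous_const).abs continuous_const, ha2 n⟩
  let β : ℕ → C(X, ℝ) := fun n =>
    clamp ⟨fun x => 2 - 4 * |k x - a n|, by fun_prop⟩
  have hβ0 : ∀ n x, 1 / 2 ≤ |k x - a n| → β n x = 0 := fun n x h =>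
    clamp_zero (by simp only [ContinuousMap.coe_mk]; linarith)
  have hβ1 : ∀ n x, |k x - a n| < 1 / 4 → β n x = 1 := fun n x h =>
    clamp_one (by simp only [ContinuousMap.coe_mk]; linarith)
  have hcont : ∀ j, Continuous fun x => ∑ᶠ n, β n x * ψ n j x := by
    intro j
    refine continuous_finsum (fun n => (β n).continuous.mul (ψ n j).continuous) fun x => ?_
    refine ⟨{z | k z < k x + 1}, (isOpen_lt k.continuous continuous_const).mem_nhds (by simp), ?_⟩
    obtain ⟨L, hL⟩ := exists_nat_ge (k x + 2)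
    refine (finite_lt_nat L).subset ?_
    rintro n ⟨z, hz1, hz2⟩
    by_contra hn
    simp only [mem_ofPred_eq, not_lt] at hn hz2
    have h1 : (L : ℝ) ≤ n := by exact_mod_cast hn
    apply hz1
    have h2 := ha3 n
    simp only
    rw [hβ0 n z (by rw [le_abs]; right; linarith), zero_mul]
  obtain ⟨y, hy⟩ := app_glue H (F ⊓ 𝓟 {x | k x ≤ N}) Φ (fun j => ⟨_, hcont j⟩) k
    (fun x => by rw [hk]; exact abs_nonneg _) N (mem_inf_of_right (mem_principal_self _)) (by
      intro s y ε hε m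
      obtain ⟨L, hL⟩ := exists_nat_ge (m + 1)
      obtain ⟨n, hn, x, hx, hx'⟩ := hψ s y ε hε L
      simp only [mem_ofPred_eq] at hx
      have h1 : (L : ℝ) ≤ n := by exact_mod_cast hn
      refine ⟨x, by have := ha3 n; rw [abs_lt] at hx; linarith [hx.1], fun j hj => ?_⟩
      simp only [ContinuousMap.coe_mk]
      rw [finsum_eq_single _ n, hβ1 n x hx, one_mul]
      · exact hx' j hj
      · intro l hl
        rw [abs_lt] at hx
        rw [hβ0 l x, zero_mul]
        rw [le_abs]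
        rcases lt_or_gt_of_ne hl with h | h
        · left; linarith [ha4 _ _ h, hx.1]
        · right; linarith [ha4 _ _ h, hx.2])
  exact ⟨y, hy.mono inf_le_left⟩

lemma eventually_injOn {J : Type} {T : ℕ → Type} (c : ∀ n, J → T n)
    (hc : ∀ j j', j ≠ j' → ∀ᶠ n in atTop, c n j ≠ c n j') (s : Finset J) :
    ∀ᶠ n in atTop, InjOn (c n) s := by
  have : ∀ᶠ n in atTop, ∀ j ∈ s, ∀ j' ∈ s, j ≠ j' → c n j ≠ c n j' := by
    refine (eventually_all_finset s).2 fun j _ => (eventually_all_finset s).2 fun j' _ => ?_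
    by_cases h : j = j'
    · simp [h]
    · exact (hc j j' h).mono fun n hn _ => hn
  filter_upwards [this] with n hn j hj j' hj' h
  by_contra hne
  exact hn j hj j' hj' hne h

lemma hmp {J : Type} (hJ : #J ≤ 𝔠) : ∃ D : ℕ → J → ℕ, ∀ (s : Finset J) (t : J → ℕ) (m : ℕ),
    ∃ n, m ≤ n ∧ ∀ j ∈ s, D n j = t j := by
  classical
  obtain ⟨e⟩ : Nonempty (J ↪ (ℕ → Bool)) := by
    rw [← Cardinal.le_def]
    simpa using hJ
  obtain ⟨σ, hσ⟩ := exists_surjective_nat (Σ n : ℕ, ((Fin n → Bool) → ℕ))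
  refine ⟨fun n j => (σ n.unpair.1).2 fun i => e j i, fun s t m => ?_⟩
  obtain ⟨L, hL⟩ := (eventually_injOn (fun n j (i : Fin n) => e j i) (fun j j' h => by
    obtain ⟨i, hi⟩ := Function.ne_iff.1 (e.injective.ne h)
    filter_upwards [eventually_gt_atTop i] with n hn h'
    exact hi (congrFun h' ⟨i, hn⟩)) s).exists
  obtain ⟨l, hl⟩ := hσ ⟨L, fun b => if h : ∃ j ∈ s, (fun i : Fin L => e j i) = b then t h.choose
    else 0⟩
  refine ⟨Nat.pair l m, Nat.right_le_pair _ _, fun j hj => ?_⟩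
  change (σ (Nat.unpair (Nat.pair l m)).1).2 (fun i => e j i) = t j
  rw [Nat.unpair_pair]
  change (σ l).2 (fun i => e j i) = t j
  rw [hl]
  have h : ∃ j' ∈ s, (fun i : Fin L => e j' i) = fun i : Fin L => e j i := ⟨j, hj, rfl⟩
  simp only [dif_pos h]
  rw [hL h.choose_spec.1 hj h.choose_spec.2]

lemma ind_continuum {J : Type} (hJ : #J ≤ 𝔠) (V : ℕ → Set X) (hV : ∀ n, (V n).Nonempty) :
    Ind J V := by
  obtain ⟨D, hD⟩ := hmp hJ
  obtain ⟨q, hq⟩ := exists_surjective_nat ℚ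
  refine ⟨fun n j => ContinuousMap.const X (q (D n j) : ℝ), fun s y ε hε m => ?_⟩
  have : ∀ j, ∃ t : ℕ, |(q t : ℝ) - y j| < ε := by
    intro j
    obtain ⟨r, hr⟩ := exists_rat_near (y j) hε
    obtain ⟨t, rfl⟩ := hq r
    exact ⟨t, by rwa [abs_sub_comm]⟩
  choose t ht using this
  obtain ⟨n, hn, hn'⟩ := hD s t m
  obtain ⟨x, hx⟩ := hV n
  exact ⟨n, hn, x, hx, fun j hj => by simpa [hn' j hj] using ht j⟩

def IndepFam (V : Set X) (ι : Type) : Prop :=
  ∃ g : ι → C(X, ℝ), ∀ (s : Finset ι) (b : ι → Bool), ∃ x ∈ V, ∀ i ∈ s,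
    g i x = if b i then 1 else 0

lemma IndepFam.mono {V : Set X} {ι ι' : Type} (h : IndepFam V ι) (hle : #ι' ≤ #ι) :
    IndepFam V ι' := by
  classical
  obtain ⟨e⟩ := (Cardinal.le_def _ _).1 hle
  obtain ⟨g, hg⟩ := h
  refine ⟨fun i => g (e i), fun s b => ?_⟩
  obtain ⟨x, hx, hx'⟩ := hg (s.map e) (Function.extend e b fun _ => false)
  refine ⟨x, hx, fun i hi => ?_⟩
  rw [hx' (e i) (Finset.mem_map_of_mem _ hi), e.injective.extend_apply]

lemma ind_of_indep {J T : Type} (e : J ↪ (ℕ → T)) (Tn : ℕ → Set T)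
    (hT : ∀ t, ∀ᶠ n in atTop, t ∈ Tn n) (V : ℕ → Set X) (hV : ∀ n, IndepFam (V n) ((Fin n → Option (Tn n)) × ℕ)) : Ind J V := by
  classical
  choose g hg using hV
  let c : ∀ n, J → (Fin n → Option (Tn n)) := fun n j i =>
    if h : e j i ∈ Tn n then some ⟨_, h⟩ else none
  have hc : ∀ j j', j ≠ j' → ∀ᶠ n in atTop, c n j ≠ c n j' := by
    intro j j' h
    obtain ⟨i, hi⟩ := Function.ne_iff.1 (e.injective.ne h)
    filter_upwards [eventually_gt_atTop i, hT (e j i), hT (e j' i)] with n hn h1 h2 h'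
    have := congrFun h' ⟨i, hn⟩
    simp only [c, dif_pos h1, dif_pos h2, Option.some.injEq, Subtype.mk.injEq] at this
    exact hi this
  refine ⟨fun n j => ContinuousMap.const X (-(n : ℝ)) + ((n : ℝ) + 1)⁻¹ •
    ∑ l ∈ Finset.range (2 * n * (n + 1)), g n (c n j, l), fun s y ε hε m => ?_⟩
  have h1 : ∀ᶠ n : ℕ in atTop, ∀ j ∈ s, |y j| ≤ n :=
    (eventually_all_finset s).2 fun j _ => tendsto_natCast_atTop_atTop.eventually_ge_atTop _
  have h2 : ∀ᶠ n : ℕ in atTop, 1 / ((n : ℝ) + 1) < ε :=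
    tendsto_one_div_add_atTop_nhds_zero_nat.eventually (gt_mem_nhds hε)
  obtain ⟨n, hn1, hn2, hn3, hn4⟩ :=
    (h1.and (h2.and ((eventually_injOn c hc s).and (eventually_ge_atTop m)))).exists
  let M : J → ℕ := fun j => ⌊(y j + n) * (n + 1)⌋₊
  obtain ⟨x, hx, hx'⟩ := hg n ((s.image (c n)) ×ˢ Finset.range (2 * n * (n + 1)))
    (fun z => decide (∃ j ∈ s, c n j = z.1 ∧ z.2 < M j))
  refine ⟨n, hn4, x, hx, fun j hj => ?_⟩
  have h3 := abs_le.1 (hn1 j hj)
  have h4 : 0 ≤ (y j + n) * (n + 1) := mul_nonneg (by linarith [h3.1]) (by positivity)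
  have h5 : M j ≤ 2 * n * (n + 1) := by
    apply Nat.floor_le_of_le
    push_cast
    exact mul_le_mul_of_nonneg_right (by linarith [h3.2]) (by positivity)
  have h6 : ∑ l ∈ Finset.range (2 * n * (n + 1)), g n (c n j, l) x = M j := by
    have : ∀ l ∈ Finset.range (2 * n * (n + 1)), g n (c n j, l) x = if l < M j then 1 else 0 := by
      intro l hl
      rw [hx' (c n j, l) (Finset.mem_product.2 ⟨Finset.mem_image_of_mem _ hj, hl⟩)]
      have : (∃ j' ∈ s, c n j' = c n j ∧ l < M j') ↔ l < M j :=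
        ⟨fun ⟨j', hj', h, h'⟩ => hn3 hj' hj h ▸ h', fun h => ⟨j, hj, rfl, h⟩⟩
      simp [this]
    rw [Finset.sum_congr rfl this, Finset.sum_boole]
    congr 1
    have : (Finset.range (2 * n * (n + 1))).filter (fun l => l < M j) = Finset.range (M j) := by
      ext l
      simp only [Finset.mem_filter, Finset.mem_range]
      omega
    rw [this, Finset.card_range]
  simp only [ContinuousMap.add_apply, ContinuousMap.const_apply, ContinuousMap.smul_apply,
    ContinuousMap.coe_sum, Finset.sum_apply, smul_eq_mul]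
  rw [h6]
  have h7 : (M j : ℝ) ≤ (y j + n) * (n + 1) := Nat.floor_le h4
  have h8 : (y j + n) * (n + 1) < M j + 1 := Nat.lt_floor_add_one _
  have hp : (0 : ℝ) < n + 1 := by positivity
  have h9 : -(n : ℝ) + ((n : ℝ) + 1)⁻¹ * M j - y j = (M j - (y j + n) * (n + 1)) / (n + 1) := by
    field_simp
    ring
  rw [h9, abs_div, abs_of_pos hp]
  refine lt_of_le_of_lt (div_le_div_of_nonneg_right ?_ hp.le) hn2
  rw [abs_le]
  constructor <;> linarith

end Pool.Agent.Lib.MP_d63cb0_gt
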