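import Pool.Agent.Lib.MP_d63cb0_gt.CCC

open Filter Topology Set Cardinal

namespace Pool.Agent.Lib.MP_d63cb0_gt

variable {X : Type} [TopologicalSpace X]

omit [TopologicalSpace X] in
lemma nonempty_of_pos {F : Filter X} {V : Set X} (h : (F ⊓ 𝓟 V).NeBot) : V.Nonempty :=
  h.nonempty_of_mem (mem_inf_of_right (mem_principal_self V))

theorem cluster_c [T35Space X] (H : AllCY X) (F : Filter X) [F.NeBot] [CountableInterFilter F]
    {J : Type} (hJ : #J ≤ 𝔠) (Φ : J → C(X, ℝ)) :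
    ∃ y : J → ℝ, MapClusterPt y F (fun x j => Φ j x) :=
  main1 H F Φ fun V hV => ind_continuum hJ V fun n => nonempty_of_pos (hV n).2

theorem rel_lindelof [T35Space X] (H : AllCY X) (J : Type) (hJ : #J ≤ 𝔠) (Φ : C(X, J → ℝ))
    (𝒰 : Set (Set (J → ℝ))) (h𝒰 : ∀ U ∈ 𝒰, IsOpen U) (hcov : ⋃₀ 𝒰 = Set.univ) :
    ∃ 𝒱 ⊆ 𝒰, 𝒱.Countable ∧ range Φ ⊆ ⋃₀ 𝒱 := by
  by_contra hne
  push Not at hne
  let S : Set (Set X) := (fun U => Φ ⁻¹' Uᶜ) '' 𝒰
  have : (countableGenerate S).NeBot := by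
    rw [← forall_mem_nonempty_iff_neBot]
    intro s hs
    obtain ⟨T, hT, hTc, hTs⟩ := mem_countableGenerate_iff.1 hs
    choose! u hu hu' using hT
    obtain ⟨_, ⟨x, rfl⟩, hx⟩ := not_subset.1 (hne (u '' T) (image_subset_iff.2 hu) (hTc.image _))
    refine ⟨x, hTs fun t ht => ?_⟩
    rw [← hu' ht]
    exact fun hxU => hx ⟨_, mem_image_of_mem _ ht, hxU⟩
  obtain ⟨y, hy⟩ := cluster_c H (countableGenerate S) hJ
    (fun j => ⟨fun x => Φ x j, (continuous_apply j).comp Φ.continuous⟩)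
  obtain ⟨U, hU, hyU⟩ : y ∈ ⋃₀ 𝒰 := hcov ▸ mem_univ y
  have h1 := mapClusterPt_iff_frequently.1 hy U ((h𝒰 U hU).mem_nhds hyU)
  have h2 : Φ ⁻¹' Uᶜ ∈ countableGenerate S := CountableGenerateSets.basic ⟨U, hU, rfl⟩
  obtain ⟨x, hx1, hx2⟩ := (h1.and_eventually h2).exists
  exact hx2 hx1

lemma RC_of_cluster {F : Filter X} {y : C(X, ℝ) → ℝ}
    (hy : MapClusterPt y F (fun x (g : C(X, ℝ)) => g x)) : RC F := by
  obtain ⟨U, hU, hU'⟩ := mapClusterPt_iff_ultrafilter.1 hy
  exact RC_of_ultra U hU fun g => ⟨_, tendsto_pi_nhds.1 hU' g⟩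

theorem class_embed [T35Space X] (H : AllCY X) (J : Type) (hJ : #J ≤ 𝔠) (e : Ups X → J → ℝ)
    (he : IsClosedEmbedding e) : IsLindelof (Ups X) := by
  refine lindelof_of_RC fun F _ _ => ?_
  let u : X → Ups X := fun x => ⟨_, unit_mem_Ups x⟩
  have hu : Continuous u := continuous_stoneCechUnit.subtype_mk _
  obtain ⟨y, hy⟩ := cluster_c H F hJ
    (fun j => ⟨fun x => e (u x) j, (continuous_apply j).comp (he.continuous.comp hu)⟩)
  obtain ⟨U, hU, hU'⟩ := mapClusterPt_iff_ultrafilter.1 hy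
  have hU'' : Tendsto (e ∘ u) U (𝓝 y) := hU'
  obtain ⟨p, rfl⟩ : y ∈ range e := he.isClosed_range.mem_of_tendsto hU''
    (Eventually.of_forall fun x => mem_range_self _)
  have h1 : Tendsto u U (𝓝 p) := he.isInducing.tendsto_nhds_iff.2 hU''
  exact ⟨p.1, p.2, ((continuous_subtype_val.tendsto p).comp h1).mapClusterPt.mono hU⟩

theorem class_card [T35Space X] (H : AllCY X) (h : #C(X, ℝ) ≤ 𝔠) : IsLindelof (Ups X) := by
  refine lindelof_of_RC fun F _ _ => ?_
  obtain ⟨y, hy⟩ := cluster_c H F h id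
  exact RC_of_cluster hy

lemma card_sep [TopologicalSpace.SeparableSpace X] : #C(X, ℝ) ≤ 𝔠 := by
  obtain ⟨s, hsc, hsd⟩ := TopologicalSpace.exists_countable_dense X
  have : Countable s := hsc.to_subtype
  have h1 : #C(X, ℝ) ≤ #(s → ℝ) := mk_le_of_injective (f := fun g x => g x.1) fun g g' h =>
    ContinuousMap.ext fun x => congrFun (g.continuous.ext_on hsd g'.continuous
      fun z hz => congrFun h ⟨z, hz⟩) x
  refine h1.trans ?_
  simp only [mk_pi, prod_const, lift_id, mk_real]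
  exact (power_le_power_left continuum_ne_zero mk_le_aleph0).trans_eq continuum_power_aleph0

lemma card_code {T : Type} {μ : Cardinal} (hμ : ℵ₀ ≤ μ) (h : #T ≤ μ) (n : ℕ) :
    #((Fin n → Option T) × ℕ) ≤ μ := by
  simp only [mk_prod, mk_pi, prod_const, mk_option, lift_id, mk_fintype, Fintype.card_fin,
    mk_eq_aleph0]
  have h1 : #T + 1 ≤ μ := (add_le_add_left h 1).trans_eq (add_one_eq hμ)
  have h2 : (#T + 1) ^ (n : Cardinal) ≤ μ :=
    (power_le_power_right h1).trans (pow_le hμ (natCast_lt_aleph0))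
  exact (mul_le_mul' h2 hμ).trans_eq (mul_eq_self hμ)

theorem class_ccc [T35Space X] (H : AllCY X) (hX : CCC X)
    (hc : {ν : Cardinal | 𝔠 < ν ∧ ν ≤ #C(X, ℝ)}.Countable) : IsLindelof (Ups X) := by
  refine lindelof_of_RC fun F _ _ => ?_
  by_contra hne
  let K : Set Cardinal := {κ | ∃ (J : Set C(X, ℝ)) (F : Filter X), #J = κ ∧ F.NeBot ∧
    CountableInterFilter F ∧ ¬ ∃ y : J → ℝ, MapClusterPt y F (fun x (j : J) => j.1 x)}
  have hK : K.Nonempty := ⟨_, Set.univ, F, rfl, ‹_›, ‹_›, fun ⟨y, hy⟩ => hne (by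
    obtain ⟨U, hU, hU'⟩ := mapClusterPt_iff_ultrafilter.1 hy
    exact RC_of_ultra U hU fun g => ⟨_, tendsto_pi_nhds.1 hU' ⟨g, trivial⟩⟩)⟩
  obtain ⟨J, F0, hJ, hF0, hF0', hno⟩ := csInf_mem hK
  set κ := sInf K with hκ
  have hκc : 𝔠 < κ := by
    by_contra hle
    exact hno (cluster_c H F0 (hJ.trans_le (not_lt.1 hle)) Subtype.val)
  have hind : ∀ V : Set X, IsOpen V → (F0 ⊓ 𝓟 V).NeBot → ∀ μ : Cardinal, μ ^ ℵ₀ = μ → ℵ₀ ≤ μ →
      μ < κ → ∀ ι : Type, #ι ≤ Order.succ μ → IndepFam V ι := by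
    intro V hV hV' μ hμ hμ' hμκ ι hι
    obtain ⟨ι', h1, h2⟩ := indep_of_many hX hμ hμ' V hV (by
      rintro ⟨J', hJ', hJ''⟩
      have h3 : #J' ∉ K := notMem_of_lt_csInf (hJ'.trans_lt hμκ) (OrderBot.bddBelow K)
      have h4 : ∃ y : J' → ℝ, MapClusterPt y (F0 ⊓ 𝓟 V) (fun x (j : J') => j.1 x) := by
        by_contra h4
        exact h3 ⟨J', _, rfl, hV', inferInstance, h4⟩
      obtain ⟨y, hy⟩ := h4
      obtain ⟨U, hU, hU'⟩ := mapClusterPt_iff_ultrafilter.1 hy
      have h5 : ∀ f : C(X, ℝ), ∃ r, Tendsto f U (𝓝 r) := by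
        intro f
        obtain ⟨g, hg, hfg⟩ := hJ'' f
        refine ⟨_, (tendsto_pi_nhds.1 hU' ⟨g, hg⟩).congr' ?_⟩
        filter_upwards [hU (mem_inf_of_right (mem_principal_self V))] with x hx
        exact (hfg hx).symm
      choose z hz using h5
      exact hno ⟨fun j => z j.1,
        (tendsto_pi_nhds.2 fun j : J => hz j.1).mapClusterPt.mono (hU.trans inf_le_left)⟩)
    exact h2.mono (hι.trans (Order.succ_le_of_lt h1))
  let N : Set Cardinal := {ν | κ ≤ ν ^ ℵ₀}
  have hκN : κ ∈ N := self_le_power κ (by simp)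
  have hνN : sInf N ∈ N := csInf_mem ⟨κ, hκN⟩
  set ν := sInf N with hν
  have hνκ : ν ≤ κ := csInf_le' hκN
  have hlt : ∀ ρ < ν, ρ ^ ℵ₀ < κ := fun ρ hρ =>
    not_le.1 (notMem_of_lt_csInf (s := N) hρ (OrderBot.bddBelow N))
  have hνc : 𝔠 < ν := by
    by_contra hle
    have : ν ^ ℵ₀ ≤ 𝔠 := (power_le_power_right (not_lt.1 hle)).trans_eq continuum_power_aleph0
    exact absurd (le_trans hνN this) (not_le.2 hκc)
  have hpp : ∀ ρ : Cardinal, (ρ ^ ℵ₀) ^ ℵ₀ = ρ ^ ℵ₀ := fun ρ => by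
    rw [← power_mul, aleph0_mul_aleph0]
  have hT : ∃ (T : Type) (Tn : ℕ → Set T), ν ≤ #T ∧ (∀ t, ∀ᶠ n in atTop, t ∈ Tn n) ∧
      ∀ n, ∃ ρ < ν, ℵ₀ ≤ ρ ∧ #(Tn n) ≤ Order.succ ρ := by
    by_cases hs : ∃ ρ < ν, ν ≤ Order.succ ρ
    · obtain ⟨ρ, h1, h2⟩ := hs
      refine ⟨ν.out, fun _ => Set.univ, (mk_out ν).ge, fun t => by simp, fun n =>
        ⟨max ρ ℵ₀, max_lt h1 (aleph0_le_continuum.trans_lt hνc), le_max_right _ _, ?_⟩⟩
      rw [mk_univ, mk_out]
      exact h2.trans (Order.succ_le_succ (le_max_left _ _))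
    · push Not at hs
      have hS : (insert 𝔠 {ρ : Cardinal | 𝔠 < ρ ∧ ρ < ν}).Countable := by
        refine (hc.mono ?_).insert _
        rintro ρ ⟨h1, h2⟩
        exact ⟨h1, h2.le.trans (hνκ.trans (hJ.symm.trans_le (mk_set_le J)))⟩
      obtain ⟨ρ, hρ⟩ := hS.exists_eq_range (insert_nonempty _ _)
      have hρν : ∀ n, ρ n < ν := fun n => by
        have : ρ n ∈ insert 𝔠 {ρ : Cardinal | 𝔠 < ρ ∧ ρ < ν} := hρ ▸ mem_range_self n
        rcases this with h | h
        · exact h ▸ hνc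
        · exact h.2
      have hle : ∀ n, ρ n ≤ #(Σ n, (ρ n).out) := fun n => by
        rw [mk_sigma]
        simpa using le_sum (fun n => #(ρ n).out) n
      refine ⟨Σ n, (ρ n).out, fun n => {t | t.1 ≤ n}, ?_, fun t => eventually_ge_atTop t.1,
        fun n => ?_⟩
      · by_contra hlt'
        push Not at hlt'
        obtain ⟨n, hn⟩ : 𝔠 ∈ range ρ := hρ ▸ mem_insert _ _
        obtain ⟨m, hm⟩ : Order.succ #(Σ n, (ρ n).out) ∈ range ρ := hρ ▸ mem_insert_of_mem _
          ⟨(hn ▸ hle n : 𝔠 ≤ _).trans_lt (Order.lt_succ _), hs _ hlt'⟩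
        exact absurd (hm ▸ hle m) (not_le.2 (Order.lt_succ _))
      · have h1 : #{t : Σ n, (ρ n).out | t.1 ≤ n} < ν := by
          have hinf : ℵ₀ ≤ ν := aleph0_le_continuum.trans hνc.le
          have h0 : ∀ i, #{t : Σ n, (ρ n).out | t.1 = i} < ν := by
            intro i
            refine lt_of_le_of_lt ?_ (hρν i)
            have : {t : Σ n, (ρ n).out | t.1 = i} = range (Sigma.mk i) := by
              ext ⟨a, b⟩
              simp only [mem_ofPred_eq, mem_range]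
              constructor
              · rintro rfl; exact ⟨b, rfl⟩
              · rintro ⟨c, hc⟩; exact (congrArg Sigma.fst hc).symm
            rw [this]
            exact mk_range_le.trans_eq (mk_out _)
          induction n with
          | zero => simpa using h0 0
          | succ n ih =>
            have : {t : Σ n, (ρ n).out | t.1 ≤ n + 1} =
                {t : Σ n, (ρ n).out | t.1 ≤ n} ∪ {t : Σ n, (ρ n).out | t.1 = n + 1} := by
              ext t
              simp only [mem_ofPred_eq, mem_union]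
              omega
            rw [this]
            exact (mk_union_le _ _).trans_lt (add_lt_of_lt hinf ih (h0 _))
        exact ⟨max _ ℵ₀, max_lt h1 (aleph0_le_continuum.trans_lt hνc), le_max_right _ _,
          (le_max_left _ _).trans (Order.le_succ _)⟩
  obtain ⟨T, Tn, hT1, hT2, hT3⟩ := hT
  obtain ⟨e⟩ : Nonempty (J ↪ (ℕ → T)) := by
    rw [← Cardinal.le_def, hJ]
    simp only [mk_pi, prod_const, lift_id, mk_eq_aleph0]
    exact le_trans hνN (power_le_power_right hT1)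
  refine hno (main1 H F0 Subtype.val fun V hV => ind_of_indep e Tn hT2 V fun n => ?_)
  obtain ⟨ρ, h1, h2, h3⟩ := hT3 n
  have h4 : ρ ≤ ρ ^ ℵ₀ := self_le_power ρ (by simp)
  exact hind (V n) (hV n).1 (hV n).2 (ρ ^ ℵ₀) (hpp ρ) (h2.trans h4) (hlt ρ h1) _
    (card_code ((h2.trans h4).trans (Order.le_succ _)) (h3.trans (Order.succ_le_succ h4)) n)

theorem class_self [T35Space X] (H : AllCY X) (T S : C(X, X)) (hST : ∀ x, S (T x) = x)
    (g : ℕ → C(X, ℝ)) (hg : ∀ x, ∃ n, g n (T x) ≠ g n x) : IsLindelof (Ups X) := by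
  refine lindelof_of_RC fun F _ _ => ?_
  have key : ∃ (F' : Filter X) (f : C(X, ℝ)), F'.NeBot ∧ CountableInterFilter F' ∧ F' ≤ F ∧
      (∀ x, |f x| ≤ 1) ∧ ∀ᶠ x in F', f x = 0 ∧ f (T x) = 1 := by
    obtain ⟨⟨n, b, r, s⟩, h⟩ := exists_pos_piece F (fun z : ℕ × Bool × ℚ × ℚ =>
      {x | z.2.2.1 < z.2.2.2 ∧ (if z.2.1 then g z.1 else -g z.1) x ≤ z.2.2.1 ∧
        (z.2.2.2 : ℝ) ≤ (if z.2.1 then g z.1 else -g z.1) (T x)}) (Eventually.of_forall fun x => by
      obtain ⟨n, hn⟩ := hg x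
      rcases lt_or_gt_of_ne hn with h | h
      · obtain ⟨r, hr1, hr2⟩ := exists_rat_btwn (neg_lt_neg h)
        obtain ⟨s, hs1, hs2⟩ := exists_rat_btwn hr2
        exact ⟨(n, false, r, s), by exact_mod_cast hs1, hr1.le, hs2.le⟩
      · obtain ⟨r, hr1, hr2⟩ := exists_rat_btwn h
        obtain ⟨s, hs1, hs2⟩ := exists_rat_btwn hr2
        exact ⟨(n, true, r, s), by exact_mod_cast hs1, hr1.le, hs2.le⟩)
    refine ⟨_, ramp (if b then g n else -g n) r s, h, inferInstance, inf_le_left, clamp_abs _, ?_⟩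
    filter_upwards [mem_inf_of_right (mem_principal_self _)] with x hx
    have hrs : (r : ℝ) < s := by exact_mod_cast hx.1
    exact ⟨ramp_zero hrs hx.2.1, ramp_one hrs hx.2.2⟩
  obtain ⟨F', f, _, _, hle, hf0, hf⟩ := key
  obtain ⟨U, hU, hU'⟩ := (app_self H F' T f hf0 hf).ultra
  refine RC_of_ultra (U.map S) ?_ fun k => hU' (k.comp S)
  have h1 : map S (map T F') = F' := by
    rw [map_map, show (S ∘ T : X → X) = id from funext hST, map_id]
  exact ((map_mono hU).trans_eq h1).trans hle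

theorem class_prod [T35Space X] (H : AllCY X) (Z D : Type) [TopologicalSpace Z]
    [TopologicalSpace D] [T35Space D] [SigmaCompactSpace D] [Nontrivial D] (e : X ≃ₜ Z × D) :
    IsLindelof (Ups X) := by
  refine lindelof_of_RC fun F _ _ => ?_
  obtain ⟨n, hn⟩ := exists_pos_piece F (fun n : ℕ => {x | (e x).2 ∈ compactCovering D n})
    (Eventually.of_forall fun x => exists_mem_compactCovering _)
  set F' := F ⊓ 𝓟 {x | (e x).2 ∈ compactCovering D n} with hF'
  obtain ⟨d0, d1, hd⟩ := exists_pair_ne D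
  obtain ⟨u, hu, hu0, hu1⟩ := CompletelyRegularSpace.completely_regular d0 {d1}
    isClosed_singleton (by simpa using hd)
  let T : D → C(X, X) := fun d => ⟨fun x => e.symm ((e x).1, d), by fun_prop⟩
  obtain ⟨U, hU, hU'⟩ := (app_self H (map (T d0) F') (T d1) ⟨fun x => u (e x).2, by fun_prop⟩
    (fun x => by
      simp only [ContinuousMap.coe_mk]
      rw [abs_of_nonneg (u _).2.1]
      exact (u _).2.2) (eventually_map.2 (Eventually.of_forall fun x => by
      have := hu1 (mem_singleton d1)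
      simp only [Pi.one_apply] at this
      simp [T, hu0, this]))).ultra
  have hU2 : (U : Filter X) ≤ map (T d1) F' := by
    refine hU.trans_eq ?_
    rw [map_map]
    congr 1
    funext x
    simp [T]
  have hne : (F' ⊓ comap (T d1) U).NeBot := by
    rw [← map_neBot_iff (T d1), Filter.push_pull, inf_eq_right.2 hU2]
    infer_instance
  let W := Ultrafilter.of (F' ⊓ comap (T d1) U)
  have hW : (W : Filter X) ≤ F' ⊓ comap (T d1) U := Ultrafilter.of_le _
  refine RC_of_ultra W (hW.trans (inf_le_left.trans inf_le_left)) fun g => ?_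
  have hc : Continuous fun x : X =>
      sSup ((fun d => |g (e.symm ((e x).1, d))|) '' compactCovering D n) :=
    (isCompact_compactCovering D n).continuous_sSup
      (f := fun x d => |g (e.symm ((e x).1, d))|) (by
        change Continuous fun z : X × D => |g (e.symm ((e z.1).1, z.2))|
        fun_prop)
  obtain ⟨r, hr⟩ := hU' ⟨_, hc⟩
  have h1 : ∀ᶠ x in (W : Filter X), |g x| ≤ r + 1 := by
    have h2 := ((hr.comp tendsto_comap).mono_left (hW.trans inf_le_right)).eventually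
      (ge_mem_nhds (lt_add_one r))
    filter_upwards [h2, (hW.trans (inf_le_left.trans inf_le_right)) (mem_principal_self _)]
      with x hx hx'
    refine le_trans ?_ hx
    refine le_csSup ((isCompact_compactCovering D n).bddAbove_image (by fun_prop)) ⟨(e x).2, hx', ?_⟩
    simp [T]
  obtain ⟨t, -, ht⟩ := (isCompact_Icc (a := -(r + 1)) (b := r + 1)).ultrafilter_le_nhds
    (W.map g) (by
      rw [le_principal_iff]
      exact mem_map.2 (h1.mono fun x hx => abs_le.1 hx))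
  exact ⟨t, ht⟩

theorem countable_of_closed_discrete [T35Space X] (H : AllCY X) {M : Type} [TopologicalSpace M]
    [T1Space M] [NormalSpace M] (φ : C(X, M)) (D : Set M) (hDφ : D ⊆ range φ)
    (hD : ∀ x, ∃ U ∈ 𝓝 x, (U ∩ D).Subsingleton) : D.Countable := by
  classical
  by_contra hne
  obtain ⟨E, hED, hE⟩ := le_mk_iff_exists_subset.1
    (show ℵ₁ ≤ #D by rwa [← not_lt, lt_aleph_one_iff, le_aleph0_iff_set_countable])
  have hE' : #E ≤ 𝔠 := hE.trans_le aleph_one_le_continuum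
  have hloc : ∀ x, ∃ U ∈ 𝓝 x, (U ∩ E).Subsingleton := fun x =>
    (hD x).imp fun U hU => ⟨hU.1, hU.2.anti (inter_subset_inter_right _ hED)⟩
  have hcl : IsClosed E := by
    rw [← isOpen_compl_iff, isOpen_iff_mem_nhds]
    intro x hx
    obtain ⟨U, hU, hU'⟩ := hloc x
    have h1 : (U ∩ E)ᶜ ∈ 𝓝 x := hU'.finite.isClosed.isOpen_compl.mem_nhds fun h => hx h.2
    filter_upwards [hU, h1] with z hz1 hz2 hz3
    exact hz2 ⟨hz1, hz3⟩
  have hdisc : DiscreteTopology E := by
    rw [discreteTopology_iff_singleton_mem_nhds]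
    intro x
    obtain ⟨U, hU, hU'⟩ := hloc x.1
    filter_upwards [continuous_subtype_val.continuousAt.preimage_mem_nhds hU] with z hz
    exact Subtype.ext (hU' ⟨hz, z.2⟩ ⟨mem_of_mem_nhds hU, x.2⟩)
  obtain ⟨r⟩ : Nonempty (E ↪ ℝ) := by rw [← Cardinal.le_def, mk_real]; exact hE'
  let ρ : Option ℝ → E → ℝ := fun o z => o.elim (r z) fun t => (r z - t)⁻¹
  have : ∀ o, ∃ g : C(M, ℝ), ∀ z : E, g z = ρ o z := by
    intro o
    obtain ⟨g, hg⟩ := (⟨ρ o, continuous_of_discreteTopology⟩ : C(E, ℝ)).exists_restrict_eq hcl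
    exact ⟨g, fun z => congrArg (fun u : C(E, ℝ) => u z) hg⟩
  choose g hg using this
  choose σ hσ using fun z : E => hDφ (hED z.2)
  have hF : (cocountable : Filter E).NeBot := by
    have := (cocardinal_inf_principal_neBot_iff (hreg := Cardinal.isRegular_aleph_one)
      (s := (Set.univ : Set E))).2 (by rw [mk_univ]; exact hE.ge)
    simpa using this
  have : CountableInterFilter (cocountable : Filter E) :=
    cardinalInterFilter_aleph_one_iff.1 inferInstance
  obtain ⟨y, hy⟩ := cluster_c H (map σ cocountable) (J := Option ℝ) (by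
    rw [mk_option, mk_real]
    exact (add_one_eq aleph0_le_continuum).le) fun o => (g o).comp φ
  have hy' : MapClusterPt y (cocountable : Filter E) fun z o => ρ o z := by
    have h1 : MapClusterPt y (cocountable : Filter E) fun z o => g o (φ (σ z)) := hy
    simpa only [hσ, hg] using h1
  obtain ⟨U, hU, hU'⟩ := mapClusterPt_iff_ultrafilter.1 hy'
  have hlim := tendsto_pi_nhds.1 hU'
  have hUne : ∀ᶠ z in (U : Filter E), r z ≠ y none := by
    refine hU (mem_cocountable.2 (Set.Subsingleton.countable ?_))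
    intro a ha b hb
    simp only [mem_compl_iff, mem_ofPred_eq, not_not] at ha hb
    exact r.injective (ha.trans hb.symm)
  have h2 : Tendsto (fun z => (ρ none z - y none) * ρ (some (y none)) z) U
      (𝓝 ((y none - y none) * y (some (y none)))) := ((hlim none).sub_const _).mul (hlim _)
  have h3 : Tendsto (fun z => (ρ none z - y none) * ρ (some (y none)) z) U (𝓝 1) := by
    refine tendsto_const_nhds.congr' ?_
    filter_upwards [hUne] with z hz
    simp [ρ, sub_ne_zero.2 hz]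
  simpa using tendsto_nhds_unique h2 h3

theorem exists_detect [T35Space X] (H : AllCY X) {M : Type} [MetricSpace M] (φ : C(X, M)) :
    ∃ g : ℕ → C(X, ℝ), ∀ x x', (∀ n, g n x = g n x') → φ x = φ x' := by
  have h1 : ∀ ε : ℝ, 0 < ε → ∃ D : Set M, D.Countable ∧ ∀ x, ∃ d ∈ D, dist (φ x) d < ε := by
    intro ε hε
    obtain ⟨D, hD⟩ := zorn_subset
      {D : Set M | D ⊆ range φ ∧ D.Pairwise fun a b => ε ≤ dist a b} (by
      intro c hc hchain
      exact ⟨⋃₀ c, ⟨sUnion_subset fun A hA => (hc hA).1,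
        (pairwise_sUnion hchain.directedOn).2 fun A hA => (hc hA).2⟩,
        fun s hs => subset_sUnion_of_mem hs⟩)
    refine ⟨D, countable_of_closed_discrete H φ D hD.prop.1 fun m =>
      ⟨_, Metric.ball_mem_nhds m (half_pos hε), fun a ha b hb => ?_⟩, fun x => ?_⟩
    · by_contra hab
      have h2 := hD.prop.2 ha.2 hb.2 hab
      have h3 := dist_triangle_right a b m
      have h4 := Metric.mem_ball.1 ha.1
      have h5 := Metric.mem_ball.1 hb.1
      linarith
    · by_contra hne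
      push Not at hne
      have h6 : φ x ∈ D := hD.le_of_ge (y := insert (φ x) D)
        ⟨insert_subset (mem_range_self x) hD.prop.1, hD.prop.2.insert fun b hb _ =>
          ⟨hne b hb, dist_comm b (φ x) ▸ hne b hb⟩⟩ (subset_insert _ _) (mem_insert _ _)
      have := hne _ h6
      rw [dist_self] at this
      linarith
  choose D hDc hD using fun n : ℕ => h1 (1 / ((n : ℝ) + 1)) (by positivity)
  rcases isEmpty_or_nonempty X with hX | ⟨⟨x0⟩⟩
  · exact ⟨0, fun x => isEmptyElim x⟩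
  obtain ⟨m, hm⟩ := (countable_iUnion hDc).exists_eq_range (by
    obtain ⟨d, hd, -⟩ := hD 0 x0
    exact ⟨d, mem_iUnion.2 ⟨0, hd⟩⟩)
  refine ⟨fun n => ⟨fun x => dist (φ x) (m n), by fun_prop⟩, fun x x' h => ?_⟩
  refine eq_of_forall_dist_le fun ε hε => ?_
  obtain ⟨n, hn⟩ := exists_nat_one_div_lt (half_pos hε)
  obtain ⟨d, hd, hd'⟩ := hD n x
  obtain ⟨k, rfl⟩ : d ∈ range m := hm ▸ mem_iUnion.2 ⟨n, hd⟩
  have h2 : dist (φ x) (m k) = dist (φ x') (m k) := h k
  have h3 := dist_triangle_right (φ x) (φ x') (m k)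
  linarith

theorem class_self' [T35Space X] (H : AllCY X) (T S : C(X, X)) (hST : ∀ x, S (T x) = x)
    {M : Type} [MetricSpace M] (φ : C(X, M)) (hφ : ∀ x, φ (T x) ≠ φ x) : IsLindelof (Ups X) := by
  obtain ⟨g, hg⟩ := exists_detect H φ
  refine class_self H T S hST g fun x => ?_
  by_contra hne
  push Not at hne
  exact hφ x (hg _ _ hne)

theorem class_fibre [T35Space X] (H : AllCY X) {M : Type} [MetricSpace M] (φ : C(X, M))
    (hφ : ∀ m, IsLindelof (φ ⁻¹' {m})) : IsLindelof (Ups X) := by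
  obtain ⟨g, hg⟩ := exists_detect H φ
  refine lindelof_of_RC fun F _ _ => ?_
  by_contra hne
  let _ := TopologicalSpace.metrizableSpaceMetric (ℕ → ℝ)
  let r : X → ℕ → ℝ := fun x n => g n x
  have hr : Continuous r := continuous_pi fun n => (g n).continuous
  have h1 : ∀ x : X, ∃ c : C(X, ℝ), c x ≠ 0 ∧ ∀ᶠ z in F, c z = 0 := by
    intro x
    obtain ⟨U, hU, V, hV, hUV⟩ := not_clusterPt_iff.1 fun h : ClusterPt x F =>
      hne (RC_of_clusterPt h)
    obtain ⟨u, hu, hu0, hu1⟩ := CompletelyRegularSpace.completely_regular x (interior U)ᶜ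
      isOpen_interior.isClosed_compl (not_not.2 (mem_interior_iff_mem_nhds.2 hU))
    refine ⟨⟨fun z => 1 - u z, by fun_prop⟩, by simp [hu0], mem_of_superset hV fun z hz => ?_⟩
    have := hu1 (show z ∈ (interior U)ᶜ from fun hz' =>
      (hUV ▸ (⟨interior_subset hz', hz⟩ : z ∈ U ∩ V) : z ∈ (∅ : Set X)))
    simp only [Pi.one_apply] at this
    simp [this]
  choose c hc hc' using h1
  have h2 : ∀ t : ℕ → ℝ, ∃ k : C(X, ℝ), ∀ᶠ z in F, dist (r z) t * k z = 1 := by
    intro t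
    have hL : IsLindelof (r ⁻¹' {t}) := by
      rcases (r ⁻¹' {t}).eq_empty_or_nonempty with h | ⟨x, hx⟩
      · rw [h]; exact isLindelof_empty
      · refine (hφ (φ x)).of_isClosed_subset (isClosed_singleton.preimage hr) fun z hz => ?_
        exact hg z x (congrFun (hz.trans hx.symm))
    obtain ⟨s, hsc, -, hs⟩ := hL.elim_nhds_subcover (fun x => {z | c x z ≠ 0})
      fun x _ => (c x).continuous.continuousAt.eventually_ne (hc x)
    obtain ⟨a, ha⟩ := ((hsc.image c).insert 0).exists_eq_range (insert_nonempty _ _)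
    let Γ : X → ℕ → ℝ := fun z n => a n z
    have hΓ : Continuous Γ := continuous_pi fun n => (a n).continuous
    have h3 : ∀ z, dist (r z) t + dist (Γ z) 0 ≠ 0 := by
      intro z hz
      have h4 := (add_eq_zero_iff_of_nonneg dist_nonneg dist_nonneg).1 hz
      obtain ⟨x, hx, hx'⟩ := mem_iUnion₂.1 (hs (show z ∈ r ⁻¹' {t} from dist_eq_zero.1 h4.1))
      obtain ⟨n, hn⟩ : c x ∈ range a := ha ▸ mem_insert_of_mem _ (mem_image_of_mem _ hx)
      exact hx' (hn ▸ congrFun (dist_eq_zero.1 h4.2) n)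
    refine ⟨⟨fun z => (dist (r z) t + dist (Γ z) 0)⁻¹,
      ((hr.dist continuous_const).add (hΓ.dist continuous_const)).inv₀ h3⟩, ?_⟩
    have h5 : ∀ᶠ z in F, ∀ n, a n z = 0 := eventually_countable_forall.2 fun n => by
      have : a n ∈ insert 0 (c '' s) := ha ▸ mem_range_self n
      rcases this with h | ⟨x, -, h⟩
      · simp [h]
      · exact h ▸ hc' x
    filter_upwards [h5] with z hz
    have h6 : Γ z = 0 := funext hz
    have h7 := h3 z
    simp only [ContinuousMap.coe_mk, h6, dist_self, add_zero] at h7 ⊢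
    exact mul_inv_cancel₀ h7
  choose k hk using h2
  obtain ⟨y, hy⟩ := cluster_c H F (J := ℕ ⊕ (ℕ → ℝ)) (by simp [mk_real]) (Sum.elim g k)
  obtain ⟨U, hU, hU'⟩ := mapClusterPt_iff_ultrafilter.1 hy
  have hlim := tendsto_pi_nhds.1 hU'
  let t : ℕ → ℝ := fun n => y (Sum.inl n)
  have h8 : Tendsto r U (𝓝 t) := tendsto_pi_nhds.2 fun n => hlim (Sum.inl n)
  have h9 : Tendsto (fun z => dist (r z) t * k t z) U (𝓝 (dist t t * y (Sum.inr t))) :=
    (h8.dist tendsto_const_nhds).mul (hlim (Sum.inr t))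
  have h10 : Tendsto (fun z => dist (r z) t * k t z) U (𝓝 1) :=
    tendsto_const_nhds.congr' (((hk t).filter_mono hU).mono fun z hz => hz.symm)
  simpa using tendsto_nhds_unique h9 h10

theorem class_meta [T35Space X] [NormalSpace X] (H : AllCY X) (hM : MetaLindelof X) :
    IsLindelof (Ups X) := by
  refine lindelof_of_RC fun F _ _ => ?_
  by_contra hne
  obtain ⟨𝒱, h1, h2, h3⟩ := hM {U | IsOpen U ∧ Uᶜ ∈ F} (fun U hU => hU.1) (by
    refine eq_univ_of_forall fun x => ?_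
    obtain ⟨U, hU, V, hV, hUV⟩ := not_clusterPt_iff.1 fun h : ClusterPt x F =>
      hne (RC_of_clusterPt h)
    refine ⟨interior U, ⟨isOpen_interior, mem_of_superset hV fun z hz hz' => ?_⟩,
      mem_interior_iff_mem_nhds.2 hU⟩
    exact (hUV ▸ (⟨interior_subset hz', hz⟩ : z ∈ U ∩ V) : z ∈ (∅ : Set X)))
  obtain ⟨D, hD⟩ := zorn_subset {D : Set X | D.Pairwise fun a b => ∀ V ∈ 𝒱, a ∈ V → b ∉ V} (by
    intro c hc hchain
    refine ⟨⋃₀ c, ?_, fun s hs => subset_sUnion_of_mem hs⟩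
    exact (pairwise_sUnion hchain.directedOn).2 fun A hA => hc hA)
  have hDc : D.Countable := countable_of_closed_discrete H (ContinuousMap.id X) D
      (fun x _ => ⟨x, rfl⟩) fun x => by
    obtain ⟨V, hV, hxV⟩ : x ∈ ⋃₀ 𝒱 := h2 ▸ mem_univ x
    refine ⟨V, (h1 V hV).1.mem_nhds hxV, fun a ha b hb => ?_⟩
    by_contra hab
    exact hD.prop ha.2 hb.2 hab V hV ha.1 hb.1
  have hc : (⋃ d ∈ D, {V ∈ 𝒱 | d ∈ V}).Countable := hDc.biUnion fun d _ => h3 d
  have h4 : ∀ᶠ x in F, ∀ V ∈ ⋃ d ∈ D, {V ∈ 𝒱 | d ∈ V}, x ∉ V := by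
    refine (eventually_countable_ball hc).2 fun V hV => ?_
    obtain ⟨d, -, hV⟩ := mem_iUnion₂.1 hV
    obtain ⟨U, hU, hVU⟩ := (h1 V hV.1).2
    exact mem_of_superset hU.2 fun z hz hz' => hz (hVU hz')
  obtain ⟨x, hx⟩ := h4.exists
  have h5 : ∀ d ∈ D, ∀ V ∈ 𝒱, d ∈ V → x ∉ V := fun d hd V hV hdV =>
    hx V (mem_iUnion₂.2 ⟨d, hd, hV, hdV⟩)
  have h6 : x ∈ D := hD.le_of_ge (y := insert x D) (hD.prop.insert fun b hb _ =>
    ⟨fun V hV hxV hbV => h5 b hb V hV hbV hxV, h5 b hb⟩) (subset_insert _ _) (mem_insert _ _)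
  obtain ⟨V, hV, hxV⟩ : x ∈ ⋃₀ 𝒱 := h2 ▸ mem_univ x
  exact h5 x h6 V hV hxV hxV

end Pool.Agent.Lib.MP_d63cb0_gt
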