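import Pool.Agent.Lib.MP_d63cb0_gt.Main

open Filter Topology Set Cardinal TopologicalSpace

namespace Pool.Agent.Lib.MP_d63cb0_gt

variable {X : Type} [TopologicalSpace X]

lemma ccc_pi {I : Type} {M : I → Type} [∀ i, TopologicalSpace (M i)]
    [∀ i, SeparableSpace (M i)] : CCC (∀ i, M i) := by
  classical
  intro 𝒰 h1 h2
  by_contra hne
  obtain ⟨E, hE𝒰, hE⟩ := le_mk_iff_exists_subset.1
    (show ℵ₁ ≤ #𝒰 by rwa [← not_lt, lt_aleph_one_iff, le_aleph0_iff_set_countable])
  have hE' : #E ≤ 𝔠 := hE.trans_le aleph_one_le_continuum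
  have : ∀ U : E, ∃ (s : Finset I) (W : ∀ i, Set (M i)),
      (∀ i ∈ s, IsOpen (W i) ∧ (W i).Nonempty) ∧ (s : Set I).pi W ⊆ U.1 := by
    intro U
    obtain ⟨hU, x, hx⟩ := h1 U.1 (hE𝒰 U.2)
    obtain ⟨s, W, hW, hW'⟩ := isOpen_pi_iff.1 hU x hx
    exact ⟨s, W, fun i hi => ⟨(hW i hi).1, _, (hW i hi).2⟩, hW'⟩
  choose s W hW hW' using this
  have hEne : Nonempty E := by
    rw [← mk_ne_zero_iff, hE]
    exact (aleph_pos 1).ne'
  obtain ⟨U0⟩ := hEne
  obtain ⟨x0, -⟩ := (h1 U0.1 (hE𝒰 U0.2)).2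
  have : ∀ i, Nonempty (M i) := fun i => ⟨x0 i⟩
  let J : Set I := ⋃ U : E, (s U : Set I)
  have hJ : #J ≤ 𝔠 := by
    refine (mk_iUnion_le _).trans ?_
    refine (mul_le_mul' hE' (ciSup_le' fun U => ?_)).trans_eq continuum_mul_aleph0
    exact (s U).finite_toSet.countable.le_aleph0
  obtain ⟨D, hD⟩ := hmp hJ
  let z : ℕ → ∀ i, M i := fun n i => if h : i ∈ J then denseSeq (M i) (D n ⟨i, h⟩) else x0 i
  have : ∀ U : E, ∃ n, z n ∈ U.1 := by
    intro U
    have : ∀ j : J, ∃ t : ℕ, j.1 ∈ s U → denseSeq (M j) t ∈ W U j := by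
      intro j
      by_cases hj : j.1 ∈ s U
      · obtain ⟨t, ht⟩ := (denseRange_denseSeq (M j)).exists_mem_open (hW U j hj).1 (hW U j hj).2
        exact ⟨t, fun _ => ht⟩
      · exact ⟨0, fun h => absurd h hj⟩
    choose t ht using this
    obtain ⟨n, -, hn⟩ := hD ((s U).subtype _) t 0
    refine ⟨n, hW' U fun i hi => ?_⟩
    have hiJ : i ∈ J := mem_iUnion.2 ⟨U, hi⟩
    simp only [z, dif_pos hiJ]
    rw [hn ⟨i, hiJ⟩ (Finset.mem_subtype.2 hi)]
    exact ht ⟨i, hiJ⟩ hi
  choose n hn using this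
  have hinj : Function.Injective n := by
    intro U U' h
    by_contra hne'
    have := h2 (hE𝒰 U.2) (hE𝒰 U'.2) fun h' => hne' (Subtype.ext h')
    exact disjoint_left.1 this (hn U) (h ▸ hn U')
  have := mk_le_of_injective hinj
  rw [hE, mk_nat] at this
  exact absurd this (not_le.2 aleph0_lt_aleph_one)

lemma ccc_of_dense {Y : Type} [TopologicalSpace Y] (hY : CCC Y) {e : X → Y}
    (he : IsDenseEmbedding e) : CCC X := by
  intro 𝒰 h1 h2
  have : ∀ U : 𝒰, ∃ W, IsOpen W ∧ e ⁻¹' W = U.1 := fun U =>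
    he.isInducing.isOpen_iff.1 (h1 U.1 U.2).1
  choose W hW hW' using this
  have hinj : Function.Injective W := fun U U' h => Subtype.ext (by rw [← hW' U, h, hW' U'])
  have hc := hY (range W) (by
    rintro _ ⟨U, rfl⟩
    obtain ⟨x, hx⟩ := (h1 U.1 U.2).2
    exact ⟨hW U, e x, by rwa [← hW' U] at hx⟩) (by
    rintro _ ⟨U, rfl⟩ _ ⟨U', rfl⟩ hne
    simp only [Function.onFun, id]
    rw [disjoint_iff_inter_eq_empty]
    by_contra h
    obtain ⟨x, hx⟩ := he.dense.exists_mem_open ((hW U).inter (hW U')) (nonempty_iff_ne_empty.2 h)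
    have := h2 U.2 U'.2 fun h' => hne (congrArg W (Subtype.ext h'))
    have h3 : x ∈ U.1 := by rw [← hW' U]; exact hx.1
    have h4 : x ∈ U'.1 := by rw [← hW' U']; exact hx.2
    exact disjoint_left.1 this h3 h4)
  rw [← image_univ, ← le_aleph0_iff_set_countable, mk_image_eq hinj, mk_univ] at hc
  exact le_aleph0_iff_set_countable.1 hc

lemma sep_pibase (M : Type) [TopologicalSpace M] [RegularSpace M] [SeparableSpace M]
    [Nonempty M] : ∃ b : Set ℕ → Set M, (∀ A, IsOpen (b A)) ∧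
      ∀ W, IsOpen W → W.Nonempty → ∃ A, (b A).Nonempty ∧ b A ⊆ W := by
  refine ⟨fun A => interior (closure (denseSeq M '' A)), fun A => isOpen_interior,
    fun W hW ⟨x, hx⟩ => ?_⟩
  obtain ⟨C, hC, hCc, hCW⟩ := exists_mem_nhds_isClosed_subset (hW.mem_nhds hx)
  refine ⟨denseSeq M ⁻¹' interior C, ⟨x, ?_⟩, interior_subset.trans
    ((closure_minimal ((image_preimage_subset _ _).trans interior_subset) hCc).trans hCW)⟩
  refine interior_maximal ?_ isOpen_interior (mem_interior_iff_mem_nhds.2 hC)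
  rw [image_preimage_eq_inter_range]
  exact (denseRange_denseSeq M).open_subset_closure_inter isOpen_interior

theorem class_pi [T35Space X] (H : AllCY X) {I : Type} {M : I → Type}
    [∀ i, TopologicalSpace (M i)] [∀ i, T35Space (M i)] [∀ i, SeparableSpace (M i)]
    {e : X → ∀ i, M i} (he : IsDenseEmbedding e) : IsLindelof (Ups X) := by
  classical
  rcases isEmpty_or_nonempty X with hX | ⟨⟨x0⟩⟩
  · exact class_card H card_sep
  have : ∀ i, Nonempty (M i) := fun i => ⟨e x0 i⟩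
  have hX : CCC X := ccc_of_dense ccc_pi he
  let I' := {i : I // Nontrivial (M i)}
  choose b hb hb' using fun i => sep_pibase (M i)
  have hcount : ∀ μ : Cardinal, μ ^ ℵ₀ = μ → 𝔠 ≤ μ → #I' ≤ μ → #C(X, ℝ) ≤ μ := by
    intro μ hμ hμ' hI
    have hμ0 := aleph0_le_continuum.trans hμ'
    let box : Finset (I' × Set ℕ) → Set X := fun s => ⋂ z ∈ s, {x | e x z.1.1 ∈ b z.1.1 z.2}
    refine count_of_pibase hX hμ hμ0 (range box) (mk_range_le.trans ?_) ?_
    · rcases finite_or_infinite (I' × Set ℕ) with h | h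
      · exact (lt_aleph0_of_finite _).le.trans hμ0
      · rw [mk_finset_of_infinite]
        simp only [mk_prod, lift_id, mk_set, mk_nat, two_power_aleph0]
        exact (mul_le_mul' hI hμ').trans_eq (mul_eq_self hμ0)
    · intro O hO ⟨x, hx⟩
      obtain ⟨W, hW, rfl⟩ := he.isInducing.isOpen_iff.1 hO
      obtain ⟨s, u, hu, hu'⟩ := isOpen_pi_iff.1 hW (e x) hx
      have : ∀ i, ∃ A, (b i A).Nonempty ∧ (i ∈ s → b i A ⊆ u i) := by
        intro i
        by_cases hi : i ∈ s
        · obtain ⟨A, h1, h2⟩ := hb' i (u i) (hu i hi).1 ⟨_, (hu i hi).2⟩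
          exact ⟨A, h1, fun _ => h2⟩
        · obtain ⟨A, h1, -⟩ := hb' i Set.univ isOpen_univ univ_nonempty
          exact ⟨A, h1, fun h => absurd h hi⟩
      choose A hA hA' using this
      refine ⟨_, ⟨(s.subtype _).image fun i => (i, A i.1), rfl⟩, ?_, ?_, ?_⟩
      · exact isOpen_biInter_finset fun z _ => (hb _ _).preimage
          ((continuous_apply _).comp he.continuous)
      · obtain ⟨y, hy⟩ := he.dense.exists_mem_open
          (isOpen_set_pi s.finite_toSet fun i _ => hb i (A i))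
          (pi_nonempty_iff.2 fun i => (hA i).imp fun _ h _ => h)
        refine ⟨y, mem_iInter₂.2 fun z hz => ?_⟩
        obtain ⟨i, hi, rfl⟩ := Finset.mem_image.1 hz
        exact hy i.1 (Finset.mem_subtype.1 hi)
      · intro y hy
        refine hu' fun i hi => ?_
        rcases subsingleton_or_nontrivial (M i) with h | h
        · rw [Subsingleton.elim (e y i) (e x i)]
          exact (hu i hi).2
        · exact hA' i hi (mem_iInter₂.1 hy (⟨i, h⟩, A i)
            (Finset.mem_image_of_mem _ (Finset.mem_subtype.2 hi)))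
  by_cases hI : #I' ≤ 𝔠
  · exact class_card H (hcount 𝔠 continuum_power_aleph0 le_rfl hI)
  push Not at hI
  have hI0 : ℵ₀ ≤ #I' := aleph0_le_continuum.trans hI.le
  have h4 : #I' ≤ #I' ^ ℵ₀ := self_le_power _ (by simp)
  have hC := hcount (#I' ^ ℵ₀) (by rw [← power_mul, aleph0_mul_aleph0]) (hI.le.trans h4) h4
  obtain ⟨c⟩ : Nonempty (C(X, ℝ) ↪ (ℕ → I')) := by
    rw [← Cardinal.le_def]
    simpa using hC
  have hside : ∀ i : I', ∃ g : C(M i, ℝ), ∀ t, (side g t).Nonempty := by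
    rintro ⟨i, hi⟩
    obtain ⟨d0, d1, hd⟩ := exists_pair_ne (M i)
    obtain ⟨u, hu, hu0, hu1⟩ := CompletelyRegularSpace.completely_regular d0 {d1}
      isClosed_singleton (by simpa using hd)
    have h1 := hu1 (mem_singleton d1)
    simp only [Pi.one_apply] at h1
    refine ⟨ramp ⟨fun x => u x, by fun_prop⟩ (1 / 3) (2 / 3), fun t => ?_⟩
    cases t
    · exact ⟨d0, mem_side_false (by norm_num) (by simp [hu0])⟩
    · exact ⟨d1, mem_side_true (by norm_num) (by simp [h1]; norm_num)⟩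
  choose g hg using hside
  have hind : ∀ V : Set X, IsOpen V → V.Nonempty → IndepFam V I' := by
    intro V hV ⟨x, hx⟩
    obtain ⟨W, hW, rfl⟩ := he.isInducing.isOpen_iff.1 hV
    obtain ⟨s, u, hu, hu'⟩ := isOpen_pi_iff.1 hW (e x) hx
    have h1 : IndepFam (e ⁻¹' W) {i : I' | i.1 ∉ s} := by
      refine ⟨fun i => (g i.1).comp ⟨fun x => e x i.1.1, (continuous_apply _).comp he.continuous⟩,
        fun t β => ?_⟩
      let O : Set (∀ i, M i) := (s : Set I).pi u ∩ ⋂ i ∈ t, {y | y i.1.1 ∈ side (g i.1) (β i)}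
      have hO : IsOpen O := (isOpen_set_pi s.finite_toSet fun i hi => (hu i hi).1).inter
        (isOpen_biInter_finset fun i _ => isOpen_interior.preimage (continuous_apply _))
      have : ∀ i : I, ∃ y : M i, (i ∈ s → y ∈ u i) ∧ ∀ (h : Nontrivial (M i)) (h' : i ∉ s),
          y ∈ side (g ⟨i, h⟩) (β ⟨⟨i, h⟩, h'⟩) := by
        intro i
        by_cases hi : i ∈ s
        · exact ⟨_, fun _ => (hu i hi).2, fun _ h' => absurd hi h'⟩
        · by_cases h : Nontrivial (M i)
          · obtain ⟨y, hy⟩ := hg ⟨i, h⟩ (β ⟨⟨i, h⟩, hi⟩)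
            exact ⟨y, fun h' => absurd h' hi, fun _ _ => hy⟩
          · exact ⟨e x i, fun h' => absurd h' hi, fun h' => absurd h' h⟩
      choose y hy hy' using this
      obtain ⟨z, hz⟩ := he.dense.exists_mem_open hO
        ⟨y, fun i hi => hy i hi, mem_iInter₂.2 fun i _ => hy' i.1.1 i.1.2 i.2⟩
      refine ⟨z, hu' hz.1, fun i hi => ?_⟩
      have h5 : e z i.1.1 ∈ side (g i.1) (β i) := mem_iInter₂.1 hz.2 i hi
      have h6 := interior_subset h5
      exact h6
    refine h1.mono ?_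
    have h2 : #{i : I' | i.1 ∈ s} < ℵ₀ :=
      (s.finite_toSet.preimage Subtype.val_injective.injOn).lt_aleph0
    have : Infinite I' := infinite_iff.2 hI0
    exact (mk_compl_of_infinite _ (h2.trans_le hI0)).ge
  refine lindelof_of_RC fun F _ _ => ?_
  obtain ⟨y, hy⟩ := main1 H F id fun V hV => ind_of_indep c (fun _ => Set.univ) (by simp) V
    fun n => (hind _ (hV n).1 (nonempty_of_pos (hV n).2)).mono
      (card_code hI0 (mk_univ.le) n)
  exact RC_of_cluster hy

end Pool.Agent.Lib.MP_d63cb0_gt
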